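import Mathlib

set_option autoImplicit false

/-!
# GSN: the generic point of a surface of hermitian points (rational cubic fourfolds, C24)

`ind_of_alg`: `n` elements over which a field of transcendence degree at least `n` is algebraic are
algebraically independent.

`top4`: `E` a field over `k` with an involution `σ`, `a` an element with `σ a ≠ a`, `z₀, z₁`
elements whose conjugates lie in `k (a, σ a, z₀, z₁)`. If every intermediate field of fixed
elements which contains `a + σ a`, `a σ a` and the two coordinates of `z₀, z₁` in the basis `1, a`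
contains all fixed elements, then `E = k (a, σ a, z₀, z₁)`.

`gen4`: if moreover `E` has transcendence degree at least four, then `a, σ a, z₀, z₁` are
algebraically independent over `k`.
-/

namespace Pool.Agent.GSN

open IntermediateField

/-- `n` elements over which a field of transcendence degree at least `n` is algebraic are
algebraically independent. -/
theorem ind_of_alg {k E : Type} [Field k] [Field E] [Algebra k E] {n : ℕ} {y : Fin n → E}
    (hy : AlgebraicIndependent k y) {x : Fin n → E}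
    (hx : Algebra.IsAlgebraic (adjoin k (Set.range x)) E) : AlgebraicIndependent k x := by
  have h1 : Algebra.IsAlgebraic (Algebra.adjoin k (Set.range x)) E :=
    isAlgebraic_adjoin_iff_top.1 hx
  exact (Algebra.IsAlgebraic.isTranscendenceBasis_of_le_trdeg_of_finite k x
    hy.cardinalMk_le_trdeg).1

/-- the same for generators. -/
theorem ind_of_top {k E : Type} [Field k] [Field E] [Algebra k E] {n : ℕ} {y : Fin n → E}
    (hy : AlgebraicIndependent k y) {x : Fin n → E}
    (hx : adjoin k (Set.range x) = ⊤) : AlgebraicIndependent k x := by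
  refine ind_of_alg hy ⟨fun e => ?_⟩
  have h1 : e ∈ adjoin k (Set.range x) := by rw [hx]; exact mem_top
  have h2 : e = algebraMap (adjoin k (Set.range x)) E ⟨e, h1⟩ := rfl
  rw [h2]
  exact isAlgebraic_algebraMap _

section Inv

variable {k E : Type} [Field k] [Field E] [Algebra k E]

/-- generation of the field by `a`, `σ a`, `z₀`, `z₁`. -/
theorem top4 (σ : E ≃ₐ[k] E) (hσ : ∀ e, σ (σ e) = e) {a : E} (ha : σ a ≠ a) {z₀ z₁ : E}
    (h0 : σ z₀ ∈ adjoin k {a, σ a, z₀, z₁}) (h1 : σ z₁ ∈ adjoin k {a, σ a, z₀, z₁})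
    (gen : ∀ T : IntermediateField k E, (∀ t ∈ T, σ t = t) → a + σ a ∈ T → a * σ a ∈ T →
      (∃ u ∈ T, ∃ v ∈ T, z₀ = u + v * a) → (∃ u ∈ T, ∃ v ∈ T, z₁ = u + v * a) →
      ∀ e, σ e = e → e ∈ T) :
    adjoin k {a, σ a, z₀, z₁} = ⊤ := by
  set F : IntermediateField k E := adjoin k {a, σ a, z₀, z₁} with hF
  have hd : a - σ a ≠ 0 := sub_ne_zero.2 (Ne.symm ha)
  have ma : a ∈ F := subset_adjoin k _ (by simp)
  have mb : σ a ∈ F := subset_adjoin k _ (by simp)
  have m0 : z₀ ∈ F := subset_adjoin k _ (by simp)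
  have m1 : z₁ ∈ F := subset_adjoin k _ (by simp)
  -- the coordinates of `z`
  have key : ∀ z : E, ∃ u v : E, σ u = u ∧ σ v = v ∧ z = u + v * a ∧
      (z ∈ F → σ z ∈ F → u ∈ F ∧ v ∈ F) := by
    intro z
    have hd' : σ a - a ≠ 0 := sub_ne_zero.2 ha
    refine ⟨(a * σ z - σ a * z) / (a - σ a), (z - σ z) / (a - σ a), ?_, ?_, ?_, fun hz hz' => ?_⟩
    · rw [map_div₀, map_sub, map_sub, map_mul, map_mul, hσ, hσ, div_eq_div_iff hd' hd]
      ring
    · rw [map_div₀, map_sub, map_sub, hσ, hσ, div_eq_div_iff hd' hd]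
      ring
    · field_simp
      ring
    · exact ⟨div_mem (sub_mem (mul_mem ma hz') (mul_mem mb hz)) (sub_mem ma mb),
        div_mem (sub_mem hz hz') (sub_mem ma mb)⟩
  obtain ⟨u₀, v₀, su₀, sv₀, e₀, f₀⟩ := key z₀
  obtain ⟨u₁, v₁, su₁, sv₁, e₁, f₁⟩ := key z₁
  obtain ⟨fu₀, fv₀⟩ := f₀ m0 h0
  obtain ⟨fu₁, fv₁⟩ := f₁ m1 h1
  set T : IntermediateField k E := adjoin k {a + σ a, a * σ a, u₀, v₀, u₁, v₁} with hT
  have hTF : T ≤ F := by
    rw [hT, adjoin_le_iff]
    intro t ht
    simp only [Set.mem_insert_iff, Set.mem_singleton_iff] at ht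
    rcases ht with h | h | h | h | h | h <;> rw [h]
    · exact add_mem ma mb
    · exact mul_mem ma mb
    · exact fu₀
    · exact fv₀
    · exact fu₁
    · exact fv₁
  have hTfix : ∀ t ∈ T, σ t = t := by
    intro t ht
    have h2 : T ≤ IntermediateField.fixedField (Subgroup.closure {σ}) := by
      rw [hT, adjoin_le_iff]
      intro s hs
      rw [SetLike.mem_coe, IntermediateField.mem_fixedField_iff]
      intro g hg
      have h3 : σ s = s := by
        simp only [Set.mem_insert_iff, Set.mem_singleton_iff] at hs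
        rcases hs with h | h | h | h | h | h <;> rw [h]
        · rw [map_add, hσ, add_comm]
        · rw [map_mul, hσ, mul_comm]
        · exact su₀
        · exact sv₀
        · exact su₁
        · exact sv₁
      induction hg using Subgroup.closure_induction with
      | mem x hx => rw [Set.mem_singleton_iff.1 hx]; exact h3
      | one => rfl
      | mul x y _ _ hx hy => rw [AlgEquiv.mul_apply, hy, hx]
      | inv x _ hx =>
        have : x⁻¹ (x s) = s := by rw [← AlgEquiv.mul_apply, inv_mul_cancel]; rfl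
        rwa [hx] at this
    have h3 := h2 ht
    rw [IntermediateField.mem_fixedField_iff] at h3
    exact h3 σ (Subgroup.subset_closure (Set.mem_singleton _))
  have hfix : ∀ e, σ e = e → e ∈ F := fun e he =>
    hTF (gen T hTfix (subset_adjoin k _ (by simp)) (subset_adjoin k _ (by simp))
      ⟨u₀, subset_adjoin k _ (by simp), v₀, subset_adjoin k _ (by simp), e₀⟩
      ⟨u₁, subset_adjoin k _ (by simp), v₁, subset_adjoin k _ (by simp), e₁⟩ e he)
  refine top_le_iff.1 fun e _ => ?_
  obtain ⟨u, v, su, sv, he, -⟩ := key e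
  rw [he]
  exact add_mem (hfix u su) (mul_mem (hfix v sv) ma)

/-- algebraic independence of `a`, `σ a`, `z₀`, `z₁`. -/
theorem gen4 (σ : E ≃ₐ[k] E) (hσ : ∀ e, σ (σ e) = e) {a : E} (ha : σ a ≠ a) {z₀ z₁ : E}
    (h0 : σ z₀ ∈ adjoin k {a, σ a, z₀, z₁}) (h1 : σ z₁ ∈ adjoin k {a, σ a, z₀, z₁})
    (gen : ∀ T : IntermediateField k E, (∀ t ∈ T, σ t = t) → a + σ a ∈ T → a * σ a ∈ T →
      (∃ u ∈ T, ∃ v ∈ T, z₀ = u + v * a) → (∃ u ∈ T, ∃ v ∈ T, z₁ = u + v * a) →
      ∀ e, σ e = e → e ∈ T)
    {y : Fin 4 → E} (hy : AlgebraicIndependent k y) :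
    AlgebraicIndependent k ![a, σ a, z₀, z₁] := by
  refine ind_of_top hy ?_
  rw [← top4 σ hσ ha h0 h1 gen]
  congr 1
  ext t
  simp only [Set.mem_range, Set.mem_insert_iff, Set.mem_singleton_iff]
  constructor
  · rintro ⟨i, rfl⟩
    fin_cases i <;> simp
  · rintro (h | h | h | h)
    · exact ⟨0, by rw [h]; rfl⟩
    · exact ⟨1, by rw [h]; rfl⟩
    · exact ⟨2, by rw [h]; rfl⟩
    · exact ⟨3, by rw [h]; rfl⟩

end Inv

end Pool.Agent.GSN
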