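import Mathlib

set_option autoImplicit false

/-!
# GSN: transcendence degree of the field of a hypersurface

`exists_ind`: the field generated by a generic point `x` (with `x 0 = 1`) of an irreducible
hypersurface `F = 0` in `P^5` contains four algebraically independent elements. (The first part is
a copy of lemmas of `Pool.Agent.PLN.RatFF`.)
-/

open MvPolynomial

namespace Pool.Agent.GSN

/-- homogenisation inside the same ring, with the variable `X 0` -/
private noncomputable def hz {m : ℕ} (n : ℕ) (P : MvPolynomial (Fin (m + 1)) ℂ) :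
    MvPolynomial (Fin (m + 1)) ℂ :=
  ∑ i ∈ Finset.range (n + 1), X 0 ^ (n - i) * homogeneousComponent i P

private theorem hz_hom {m : ℕ} (n : ℕ) (P : MvPolynomial (Fin (m + 1)) ℂ) :
    (hz n P).IsHomogeneous n := by
  refine IsHomogeneous.sum _ _ _ fun i hi => ?_
  have h1 : ((X 0 : MvPolynomial (Fin (m + 1)) ℂ) ^ (n - i)).IsHomogeneous (n - i) := by
    have := (isHomogeneous_X ℂ (0 : Fin (m + 1))).pow (n - i)
    rwa [one_mul] at this
  have h2 := h1.mul (homogeneousComponent_isHomogeneous i P)
  rw [Finset.mem_range] at hi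
  rwa [Nat.sub_add_cancel (by omega)] at h2

private theorem aeval_hz {m n : ℕ} {P : MvPolynomial (Fin (m + 1)) ℂ} {L : Type} [Field L]
    [Algebra ℂ L] {z : Fin (m + 1) → L} (z0 : z 0 = 1) (h : P.totalDegree ≤ n) :
    aeval z (hz n P) = aeval z P := by
  unfold hz
  rw [map_sum]
  have h1 : ∀ i ∈ Finset.range (n + 1), aeval z (X 0 ^ (n - i) * homogeneousComponent i P) =
      aeval z (homogeneousComponent i P) := by
    intro i _
    rw [map_mul, map_pow, aeval_X, z0, one_pow, one_mul]
  rw [Finset.sum_congr rfl h1, ← map_sum]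
  congr 1
  conv_rhs => rw [← sum_homogeneousComponent P]
  symm
  refine Finset.sum_subset (Finset.range_mono (by omega)) fun i _ hi => ?_
  refine homogeneousComponent_eq_zero _ _ ?_
  rw [Finset.mem_range] at hi
  omega

/-- The homogeneous form of algebraic independence. -/
private theorem alg_indep {F : MvPolynomial (Fin 6) ℂ} {n : ℕ} (hF : F.IsHomogeneous n)
    (hirr : Irreducible F) {L : Type} [Field L] [Algebra ℂ L] (x : Fin 6 → L)
    (x0 : x 0 = 1)
    (hker : ∀ (G : MvPolynomial (Fin 6) ℂ) (m : ℕ), G.IsHomogeneous m →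
      (aeval x G = 0 ↔ F ∣ G)) :
    ∃ k : Fin 6, k ≠ 0 ∧ AlgebraicIndependent ℂ fun i : {i : Fin 6 // i ≠ 0 ∧ i ≠ k} => x i := by
  classical
  have hX : ¬ F ∣ X 0 := by
    rw [← hker _ 1 (isHomogeneous_X _ _), aeval_X, x0]
    exact one_ne_zero
  obtain ⟨k, hk0, hk⟩ : ∃ k : Fin 6, k ≠ 0 ∧ degreeOf k F ≠ 0 := by
    by_contra hcon
    push Not at hcon
    -- then `F = c X_0 ^ n`
    have h1 : F = C (coeff (Finsupp.single 0 n) F) * X 0 ^ n := by
      ext d
      rw [coeff_C_mul, X_pow_eq_monomial, coeff_monomial]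
      by_cases hd : d ∈ F.support
      · have h2 : ∀ k : Fin 6, k ≠ 0 → d k = 0 := by
          intro k hk
          have h3 := monomial_le_degreeOf k hd
          rw [hcon k hk] at h3
          omega
        have h3 : d = Finsupp.single 0 (d 0) := by
          ext k
          by_cases hk : k = 0
          · rw [hk, Finsupp.single_eq_same]
          · rw [h2 k hk, Finsupp.single_eq_of_ne hk]
        have h4 : d 0 = n := by
          have h5 := hF (mem_support_iff.1 hd)
          rw [h3, Finsupp.weight_single] at h5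
          simpa using h5
        rw [h4] at h3
        rw [if_pos h3.symm, mul_one, ← h3]
      · rw [notMem_support_iff.1 hd]
        split_ifs with h3
        · rw [h3, notMem_support_iff.1 hd, zero_mul]
        · rw [mul_zero]
    have h2 : F ∣ X 0 := by
      have h3 : Prime F := hirr.prime
      have h4 : F ∣ C (coeff (Finsupp.single 0 n) F) * X 0 ^ n := by rw [← h1]
      have h5 : coeff (Finsupp.single 0 n) F ≠ 0 := by
        intro h6
        rw [h6, C_0, zero_mul] at h1
        exact hirr.ne_zero h1
      rcases h3.dvd_or_dvd h4 with h6 | h6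
      · exact absurd (isUnit_of_dvd_unit h6 ((IsUnit.mk0 _ h5).map C)) hirr.not_isUnit
      · exact h3.dvd_of_dvd_pow h6
    exact hX h2
  refine ⟨k, hk0, ?_⟩
  rw [algebraicIndependent_iff]
  intro P hP
  -- homogenise
  set Q : MvPolynomial (Fin 6) ℂ := rename (fun i : {i : Fin 6 // i ≠ 0 ∧ i ≠ k} => (i : Fin 6)) P
    with hQ
  have hinj : Function.Injective fun i : {i : Fin 6 // i ≠ 0 ∧ i ≠ k} => (i : Fin 6) :=
    Subtype.val_injective
  have h1 : aeval x Q = 0 := by
    rw [hQ, aeval_rename]
    exact hP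
  have h2 : F ∣ hz Q.totalDegree Q := by
    rw [← hker _ _ (hz_hom _ _), aeval_hz x0 le_rfl, h1]
  have hQk : ∀ d ∈ Q.support, d k = 0 := by
    intro d hd
    by_contra h3
    have h4 : k ∈ Q.vars := (mem_vars_iff_mem_support _).2 ⟨d, hd, Finsupp.mem_support_iff.2 h3⟩
    rw [hQ] at h4
    have h5 := vars_rename (fun i : {i : Fin 6 // i ≠ 0 ∧ i ≠ k} => (i : Fin 6)) P h4
    rw [Finset.mem_image] at h5
    obtain ⟨i, -, hi⟩ := h5
    exact i.2.2 hi
  have h3 : degreeOf k (hz Q.totalDegree Q) = 0 := by
    have h4 : k ∉ (hz Q.totalDegree Q).vars := by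
      intro h5
      unfold hz at h5
      have h6 := vars_sum_subset _ _ h5
      rw [Finset.mem_biUnion] at h6
      obtain ⟨i, -, hi⟩ := h6
      have h7 := vars_mul _ _ hi
      rw [Finset.mem_union] at h7
      rcases h7 with h7 | h7
      · have h8 := vars_pow _ _ h7
        rw [vars_X, Finset.mem_singleton] at h8
        exact hk0 h8
      · rw [mem_vars_iff_mem_support] at h7
        obtain ⟨d, hd, hdk⟩ := h7
        have h8 : d ∈ Q.support := by
          rw [mem_support_iff, coeff_homogeneousComponent] at hd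
          rw [mem_support_iff]
          intro h9
          apply hd
          rw [h9]
          split_ifs <;> rfl
        exact Finsupp.mem_support_iff.1 hdk (hQk d h8)
    by_contra h5
    exact h4 (mem_vars_iff_degreeOf_ne_zero.2 h5)
  have h4 : hz Q.totalDegree Q = 0 := by
    obtain ⟨G, hG⟩ := h2
    rw [hG]
    by_contra h5
    have h6 := degreeOf_mul_eq (n := k) (left_ne_zero_of_mul h5) (right_ne_zero_of_mul h5)
    rw [← hG, h3] at h6
    omega
  -- dehomogenise
  have h5 : Q = 0 := by
    have h6 : ∀ d ∈ Q.support, d 0 = 0 := by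
      intro d hd
      by_contra h3
      have h4 : (0 : Fin 6) ∈ Q.vars := (mem_vars_iff_mem_support _).2
        ⟨d, hd, Finsupp.mem_support_iff.2 h3⟩
      rw [hQ] at h4
      have h5 := vars_rename (fun i : {i : Fin 6 // i ≠ 0 ∧ i ≠ k} => (i : Fin 6)) P h4
      rw [Finset.mem_image] at h5
      obtain ⟨i, -, hi⟩ := h5
      exact i.2.1 hi
    have h7 : ∀ v : Fin 6 → ℂ, eval v Q = 0 := by
      intro v
      have h8 : eval v Q = eval (Function.update v 0 1) Q := by
        refine eval₂Hom_congr' rfl (fun j hj _ => ?_) rfl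
        rw [Function.update_of_ne]
        rintro rfl
        rw [mem_vars_iff_mem_support] at hj
        obtain ⟨d, hd, hd0⟩ := hj
        exact Finsupp.mem_support_iff.1 hd0 (h6 d hd)
      have h9 : aeval (Function.update v 0 1) (hz Q.totalDegree Q) =
          aeval (Function.update v 0 1) Q := aeval_hz (by rw [Function.update_self]) le_rfl
      rw [h4, map_zero] at h9
      rw [h8, ← aeval_eq_eval]
      exact h9.symm
    exact MvPolynomial.funext fun v => by rw [h7, map_zero]
  rw [hQ] at h5
  exact rename_injective _ hinj (by rw [h5, map_zero])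

theorem exists_ind {F : MvPolynomial (Fin 6) ℂ} {n : ℕ} (hF : F.IsHomogeneous n)
    (hirr : Irreducible F) {L : Type} [Field L] [Algebra ℂ L] (x : Fin 6 → L)
    (x0 : x 0 = 1)
    (hker : ∀ (G : MvPolynomial (Fin 6) ℂ) (m : ℕ), G.IsHomogeneous m →
      (aeval x G = 0 ↔ F ∣ G)) : ∃ y : Fin 4 → L, AlgebraicIndependent ℂ y := by
  obtain ⟨k, hk0, hk⟩ := alg_indep hF hirr x x0 hker
  have hcard : Fintype.card {i : Fin 6 // i ≠ 0 ∧ i ≠ k} = 4 := by
    clear hk
    revert k
    decide
  refine ⟨_, hk.comp (Fintype.equivFinOfCardEq hcard).symm (Equiv.injective _)⟩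

end Pool.Agent.GSN
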