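import Pool.Agent.GSN.Fin
import Pool.Agent.GSN.Trd
import Pool.Agent.GSX.SqKf
import Pool.Agent.GSH.Two

set_option autoImplicit false

/-!
# GSN: the non-degeneracy theorem in the form used by the assembly
-/

noncomputable section

namespace Pool.Agent.GSN

open Matrix MvPolynomial GSR GSH

/-- generators of `ℂ(s, t)` are algebraically independent -/
theorem ind_gen {c : Fin 2 → GSX.Sq.Kf}
    (hc : IntermediateField.adjoin ℂ (Set.range c) = ⊤) : AlgebraicIndependent ℂ c := by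
  have h1 : AlgebraicIndependent ℂ (fun i : Fin 2 =>
      algebraMap (MvPolynomial (Fin 2) ℂ) GSX.Sq.Kf (X i)) := by
    have h2 := (MvPolynomial.algebraicIndependent_X (Fin 2) ℂ).map'
      (f := IsScalarTower.toAlgHom ℂ (MvPolynomial (Fin 2) ℂ) GSX.Sq.Kf)
      (IsFractionRing.injective (MvPolynomial (Fin 2) ℂ) GSX.Sq.Kf)
    exact h2
  exact ind_of_top h1 hc

theorem hN_of {Ω : Type} [Field Ω] [Algebra ℂ Ω] [Algebra GSX.Sq.Kf Ω]
    [IsScalarTower ℂ GSX.Sq.Kf Ω]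
    {F : MvPolynomial (Fin 6) ℂ} {n : ℕ} (hF : F.IsHomogeneous n) (hirr : Irreducible F)
    {x : Fin 6 → Ω} (x0 : x 0 = 1)
    (hker : ∀ (G : MvPolynomial (Fin 6) ℂ) (m : ℕ), G.IsHomogeneous m →
      (aeval x G = 0 ↔ F ∣ G))
    (D : Dat ℂ) (hD : Good D) {c : Fin 2 → GSX.Sq.Kf}
    (hc : IntermediateField.adjoin ℂ (Set.range c) = ⊤)
    (hds : NSq Ω ((D.map (algebraMap ℂ GSX.Sq.Kf)).s2 c)) (v : Fin 6 → Ω) (hv : v ≠ 0)
    (hO : (D.map (algebraMap ℂ Ω)).IsO (fun i => algebraMap GSX.Sq.Kf Ω (c i)) v)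
    (hg : ∀ T : IntermediateField ℂ Ω, (∀ i, algebraMap GSX.Sq.Kf Ω (c i) ∈ T) →
        (∃ (v' : Fin 6 → Ω) (α β : Ω), (∀ i, v' i ∈ T) ∧ ∀ i, v i = α * v' i +
          β * (D.map (algebraMap ℂ Ω)).K (fun i => algebraMap GSX.Sq.Kf Ω (c i)) v' i) → T = ⊤) :
    (D.map (algebraMap ℂ Ω)).NDegH
      ((D.map (algebraMap ℂ Ω)).third (fun i => algebraMap GSX.Sq.Kf Ω (c i)) v) := by
  obtain ⟨y, hy⟩ := exists_ind hF hirr x x0 hker
  have hc' : AlgebraicIndependent ℂ (fun i => algebraMap GSX.Sq.Kf Ω (c i)) :=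
    (ind_gen hc).map' (f := IsScalarTower.toAlgHom ℂ GSX.Sq.Kf Ω)
      (algebraMap GSX.Sq.Kf Ω).injective
  refine ndeg_main D hD hc' hy ?_ v hv hO hg
  rintro ⟨r, hr⟩
  have h1 : (D.map (algebraMap ℂ GSX.Sq.Kf)).map (algebraMap GSX.Sq.Kf Ω) =
      D.map (algebraMap ℂ Ω) := by
    rw [map_map]
    congr 1
    funext z
    exact (IsScalarTower.algebraMap_apply ℂ GSX.Sq.Kf Ω z).symm
  rw [← h1, map_s2] at hr
  exact hds r (by rw [hr, pow_two])

end Pool.Agent.GSN
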