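import Mathlib

set_option autoImplicit false

/-!
# GSN: specialisation of a field with one square root

`E` a field over `k`, `x` a family in `E`, algebraically independent over `k`, `s` an element of
`E` with `s ^ 2 = S (x)`, `S` a polynomial. If `s` is not a rational function of `x`, every point
`(t, u)` with coordinates in `k` and `u ^ 2 = S (t)` is a specialisation of `(x, s)`.
-/

namespace Pool.Agent.GSN

open MvPolynomial

variable {k : Type} [Field k]

/-- reduction of a polynomial in `(x, s)` modulo `s ^ 2 = S (x)` -/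
theorem red {ι : Type} (S : MvPolynomial ι k) (P : MvPolynomial (Option ι) k) :
    ∃ U V : MvPolynomial ι k, ∀ (R : Type) [CommRing R] [Algebra k R] (x : ι → R) (s : R),
      s ^ 2 = aeval x S → aeval (fun o : Option ι => o.elim s x) P = aeval x U + aeval x V * s := by
  induction P using MvPolynomial.induction_on with
  | C a => exact ⟨C a, 0, fun R _ _ x s _ => by simp⟩
  | add p q hp hq =>
    obtain ⟨U, V, h⟩ := hp
    obtain ⟨U', V', h'⟩ := hq
    refine ⟨U + U', V + V', fun R _ _ x s hs => ?_⟩
    rw [map_add, h R x s hs, h' R x s hs, map_add, map_add]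
    ring
  | mul_X p i hp =>
    obtain ⟨U, V, h⟩ := hp
    cases i with
    | none =>
      refine ⟨V * S, U, fun R _ _ x s hs => ?_⟩
      rw [map_mul, h R x s hs, aeval_X, map_mul, ← hs]
      change (aeval x U + aeval x V * s) * s = _
      ring
    | some i =>
      refine ⟨U * X i, V * X i, fun R _ _ x s hs => ?_⟩
      rw [map_mul, h R x s hs, aeval_X, map_mul, map_mul, aeval_X]
      change (aeval x U + aeval x V * s) * x i = _
      ring

variable {E : Type} [Field E] [Algebra k E]

/-- the point `(t, u)` is a specialisation of `(x, s)` -/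
theorem spec_of {ι : Type} {x : ι → E} (hx : AlgebraicIndependent k x) {s : E}
    {S : MvPolynomial ι k} (hs : s ^ 2 = aeval x S)
    (hns : ∀ U V : MvPolynomial ι k, aeval x U + aeval x V * s = 0 → V = 0)
    {t : ι → k} {u : k} (hu : u ^ 2 = aeval t S) {P : MvPolynomial (Option ι) k}
    (hP : aeval (fun o : Option ι => o.elim s x) P = 0) :
    aeval (fun o : Option ι => o.elim u t) P = 0 := by
  obtain ⟨U, V, h⟩ := red S P
  have h1 := h E x s hs
  rw [hP] at h1
  have hV : V = 0 := hns U V h1.symm
  have hU : U = 0 := by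
    rw [hV, map_zero, zero_mul, add_zero] at h1
    exact hx (by rw [← h1, map_zero])
  rw [h k t u hu, hU, hV, map_zero, zero_mul, add_zero]

/-- `s` is not a rational function of elements fixed by `σ` -/
theorem ns_of {ι : Type} {x : ι → E} (hx : AlgebraicIndependent k x) (h2 : (2 : E) ≠ 0)
    (σ : E ≃ₐ[k] E) (hσx : ∀ i, σ (x i) = x i) {s : E} (hσs : σ s = -s) (hs0 : s ≠ 0)
    (U V : MvPolynomial ι k) (h : aeval x U + aeval x V * s = 0) : V = 0 := by
  have fx : ∀ P : MvPolynomial ι k, σ (aeval x P) = aeval x P := by
    intro P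
    have h1 : σ (aeval x P) = (σ.toAlgHom.comp (aeval x)) P := rfl
    have h2 : σ.toAlgHom.comp (aeval x) = aeval x := by
      apply MvPolynomial.algHom_ext
      intro i
      change σ (aeval x (X i)) = aeval x (X i)
      rw [aeval_X, hσx]
    rw [h1, h2]
  have h1 := congrArg σ h
  rw [map_add, map_mul, fx, fx, hσs, map_zero] at h1
  have h3 : aeval x V * s * 2 = 0 := by linear_combination h - h1
  have h4 : aeval x V = 0 := by
    rcases mul_eq_zero.1 h3 with h5 | h5
    · exact (mul_eq_zero.1 h5).resolve_right hs0
    · exact absurd h5 h2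
  exact hx (by rw [h4, map_zero])

/-- `s` is not a rational function of `c₀, c₁, m, n` if it is not one of `c₀, c₁`. -/
theorem ns_four [CharZero k] {c : Fin 2 → E} {m n : E}
    (hx : AlgebraicIndependent k ![c 0, c 1, m, n]) (hc : AlgebraicIndependent k c)
    (σ : E ≃ₐ[k] E) (hσc : ∀ i, σ (c i) = c i) {s : E} (hσs : σ s = -s) (hs0 : s ≠ 0)
    {S : MvPolynomial (Fin 2) k} (hs : s ^ 2 = aeval c S)
    (U V : MvPolynomial (Fin 4) k)
    (h : aeval ![c 0, c 1, m, n] U + aeval ![c 0, c 1, m, n] V * s = 0) : V = 0 := by
  have h2 : (2 : E) ≠ 0 := by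
    have : (algebraMap k E) 2 ≠ 0 := (map_ne_zero _).2 two_ne_zero
    rwa [map_ofNat] at this
  by_contra hV
  obtain ⟨t, ht⟩ : ∃ t : Fin 4 → k, eval t V ≠ 0 := by
    by_contra hcon
    push Not at hcon
    exact hV (MvPolynomial.funext fun t => by rw [hcon, map_zero])
  set S4 : MvPolynomial (Fin 4) k := rename ![(0 : Fin 4), 1] S with hS4
  have hS4a : ∀ (R : Type) [CommRing R] [Algebra k R] (a b e f : R),
      aeval ![a, b, e, f] S4 = aeval ![a, b] S := by
    intro R _ _ a b e f
    rw [hS4, aeval_rename]
    congr 2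
    funext i
    fin_cases i <;> rfl
  have hcc : c = ![c 0, c 1] := by
    funext i
    fin_cases i <;> rfl
  have hpol : U ^ 2 = V ^ 2 * S4 := by
    refine hx ?_
    rw [map_pow, map_mul, map_pow, hS4a, ← hcc, ← hs]
    linear_combination (aeval ![c 0, c 1, m, n] U - aeval ![c 0, c 1, m, n] V * s) * h
  -- evaluate at `(c₀, c₁, t₂, t₃)`
  set y : Fin 4 → E := ![c 0, c 1, algebraMap k E (t 2), algebraMap k E (t 3)] with hy
  have h3 := congrArg (aeval y) hpol
  rw [map_pow, map_mul, map_pow, hS4a, ← hcc, ← hs] at h3
  have fx : ∀ P : MvPolynomial (Fin 4) k, σ (aeval y P) = aeval y P := by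
    intro P
    have h1 : σ (aeval y P) = (σ.toAlgHom.comp (aeval y)) P := rfl
    have h2 : σ.toAlgHom.comp (aeval y) = aeval y := by
      apply MvPolynomial.algHom_ext
      intro i
      change σ (aeval y (X i)) = aeval y (X i)
      rw [aeval_X]
      fin_cases i
      · exact hσc 0
      · exact hσc 1
      · exact σ.commutes (t 2)
      · exact σ.commutes (t 3)
    rw [h1, h2]
  have hVy : aeval y V ≠ 0 := by
    intro hcon
    set z : Fin 4 → MvPolynomial (Fin 2) k := ![X 0, X 1, C (t 2), C (t 3)] with hz
    have h4 : aeval c (aeval z V) = aeval y V := by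
      have h5 : (aeval c).comp (aeval z) = aeval y := by
        apply MvPolynomial.algHom_ext
        intro i
        rw [AlgHom.comp_apply, aeval_X, aeval_X]
        fin_cases i
        · exact aeval_X _ _
        · exact aeval_X _ _
        · exact aeval_C _ _
        · exact aeval_C _ _
      rw [← h5]
      rfl
    rw [hcon] at h4
    have h6 : aeval z V = 0 := hc (by rw [h4, map_zero])
    have h7 : aeval ![t 0, t 1] (aeval z V) = eval t V := by
      have h5 : (aeval ![t 0, t 1]).comp (aeval z) =
          (aeval t : MvPolynomial (Fin 4) k →ₐ[k] k) := by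
        apply MvPolynomial.algHom_ext
        intro i
        rw [AlgHom.comp_apply, aeval_X, aeval_X]
        fin_cases i
        · exact aeval_X _ _
        · exact aeval_X _ _
        · exact aeval_C _ _
        · exact aeval_C _ _
      have h8 := congrArg (fun f => f V) h5
      exact h8
    rw [h6, map_zero] at h7
    exact ht h7.symm
  have h8 : (aeval y U - aeval y V * s) * (aeval y U + aeval y V * s) = 0 := by
    linear_combination h3
  rcases mul_eq_zero.1 h8 with h9 | h9
  · have h10 := congrArg σ h9
    rw [map_sub, map_mul, fx, fx, hσs, map_zero] at h10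
    have h11 : aeval y V * s * 2 = 0 := by linear_combination h10 - h9
    rcases mul_eq_zero.1 h11 with h12 | h12
    · exact (mul_ne_zero hVy hs0) h12
    · exact h2 h12
  · have h10 := congrArg σ h9
    rw [map_add, map_mul, fx, fx, hσs, map_zero] at h10
    have h11 : aeval y V * s * 2 = 0 := by linear_combination h9 - h10
    rcases mul_eq_zero.1 h11 with h12 | h12
    · exact (mul_ne_zero hVy hs0) h12
    · exact h2 h12

end Pool.Agent.GSN
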