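import Pool.Agent.GSN.Ex
import Pool.Agent.GSN.Spec

set_option autoImplicit false

/-!
# GSN: `Good` outside a hypersurface

`coord D`: the 56 coefficients of the datum `D`. `exists_Delta`: there is a nonzero polynomial
`Δ` in the 56 coefficients such that every datum `D` over `ℂ` with `Δ (D) ≠ 0` is `Good` and
`B, E, 1, N` are linearly independent.
-/

namespace Pool.Agent.GSN

open Matrix Pool.Agent.GSR MvPolynomial

/-- the 56 indices -/
abbrev Idx : Type := (Fin 3 × Fin 2 × Fin 2) ⊕ (Fin 2 × Fin 4) ⊕ (Fin 6 × Fin 6)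

/-- the coefficients of a datum: the entries of `B, N, E`, of `γ, δ` and of `t` -/
def coord {R : Type} (D : Dat R) : Idx → R
  | Sum.inl (a, i, j) => (![D.B, D.N, D.E] a) i j
  | Sum.inr (Sum.inl (a, i)) => (![D.γ, D.δ] a) i
  | Sum.inr (Sum.inr (i, j)) => D.t i j

/-- the datum with given coefficients -/
def ofCoord {R : Type} (x : Idx → R) : Dat R where
  B := fun i j => x (Sum.inl (0, i, j))
  N := fun i j => x (Sum.inl (1, i, j))
  E := fun i j => x (Sum.inl (2, i, j))
  γ := fun i => x (Sum.inr (Sum.inl (0, i)))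
  δ := fun i => x (Sum.inr (Sum.inl (1, i)))
  t := fun i j => x (Sum.inr (Sum.inr (i, j)))

theorem ofCoord_coord {R : Type} (D : Dat R) : ofCoord (coord D) = D := rfl

theorem map_ofCoord {R R' : Type} (f : R → R') (x : Idx → R) :
    (ofCoord x).map f = ofCoord (fun i => f (x i)) := rfl

section Prod

variable {F : Type} [CommRing F]

/-- the product of the five polynomials at `c = 0`, `m = n = 1` -/
def prd (D : Dat F) (s : F) : F :=
  D.B.det * WW D ![0, 0] s 0 0 * (MM D ![0, 0] s).det *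
    res (MM D ![0, 0] s) (NN D ![0, 0] s) * D.hP (v3 D ![0, 0] s ![1, 1, 1])

theorem map_prd {F' : Type} [CommRing F'] (f : F →+* F') (D : Dat F) (s : F) :
    prd (D.map f) (f s) = f (prd D s) := by
  have hc : (fun i => f ((![0, 0] : Fin 2 → F) i)) = ![0, 0] := by
    funext i
    fin_cases i <;> exact map_zero f
  have hz : (fun i => f ((![1, 1, 1] : Fin 3 → F) i)) = ![1, 1, 1] := by
    funext i
    fin_cases i <;> exact map_one f
  have h0 : (D.map f).B.det = f D.B.det := map_det' f _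
  have h1 := map_WW f D ![0, 0] s 0 0
  have h2 := map_MM f D ![0, 0] s
  have h3 := map_NN f D ![0, 0] s
  have h4 := map_v3 f D ![0, 0] s ![1, 1, 1]
  rw [hc] at h1 h2 h3 h4
  rw [hz] at h4
  rw [prd, h0, h1, h2, h3, h4, D.map_hP f, map_det3, map_res, prd]
  simp only [map_mul]

end Prod

theorem good_of_prd {k : Type} [Field k] (D : Dat k) {s : k} (hs : s ^ 2 = D.s2 ![0, 0])
    (h : prd D s ≠ 0) : Good D := by
  unfold prd at h
  have h5 := right_ne_zero_of_mul h
  have h' := left_ne_zero_of_mul h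
  have h4 := right_ne_zero_of_mul h'
  have h'' := left_ne_zero_of_mul h'
  have h3 := right_ne_zero_of_mul h''
  have h''' := left_ne_zero_of_mul h''
  exact ⟨![0, 0], s, 1, 1, hs, left_ne_zero_of_mul h''', right_ne_zero_of_mul h''', h3, h4, h5⟩

theorem prd1 : prd D1 2 ≠ 0 := by
  unfold prd
  refine mul_ne_zero (mul_ne_zero (mul_ne_zero (mul_ne_zero ?_ ?_) ?_) ?_) ?_
  · rw [D1_det]
    norm_num
  · rw [D1_W1]
    norm_num
  · rw [D1_M1]
    simp [Matrix.det_fin_three]
  · rw [D1_M1, D1_N1]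
    simp [res]
  · rw [D1_v1, hP_smul, D1_hP]
    norm_num

theorem prd2 : prd D1 (-2) ≠ 0 := by
  unfold prd
  refine mul_ne_zero (mul_ne_zero (mul_ne_zero (mul_ne_zero ?_ ?_) ?_) ?_) ?_
  · rw [D1_det]
    norm_num
  · rw [D1_W2]
    norm_num
  · rw [D1_M2]
    simp [Matrix.det_fin_three]
  · rw [D1_M2, D1_N2]
    simp [res]
  · rw [D1_v2, hP_smul, D1_hP]
    norm_num

/-- the four matrices `B, E, 1, N` as the rows of a `4 × 4` matrix -/
def four {F : Type} [CommRing F] (D : Dat F) : Matrix (Fin 4) (Fin 4) F :=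
  !![D.B 0 0, D.B 0 1, D.B 1 0, D.B 1 1;
    D.E 0 0, D.E 0 1, D.E 1 0, D.E 1 1;
    1, 0, 0, 1;
    D.N 0 0, D.N 0 1, D.N 1 0, D.N 1 1]

theorem map_four {F F' : Type} [CommRing F] [CommRing F'] (f : F →+* F') (D : Dat F) :
    four (D.map f) = (four D).map f := by
  ext i j
  fin_cases i <;> fin_cases j <;> first | rfl | exact (map_one f).symm | exact (map_zero f).symm

theorem li_of_four {k : Type} [Field k] {D : Dat k} (h : (four D).det ≠ 0) :
    LinearIndependent k ![D.B, D.E, 1, D.N] := by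
  rw [Fintype.linearIndependent_iff]
  intro g hg
  have hg' : g 0 • D.B + g 1 • D.E + g 2 • (1 : Matrix (Fin 2) (Fin 2) k) + g 3 • D.N = 0 := by
    rw [← hg, Fin.sum_univ_four]
    rfl
  have e : ∀ i j : Fin 2, g 0 * D.B i j + g 1 * D.E i j + g 2 * (1 : Matrix (Fin 2) (Fin 2) k) i j
      + g 3 * D.N i j = 0 := fun i j => congrFun (congrFun hg' i) j
  have o00 : (1 : Matrix (Fin 2) (Fin 2) k) 0 0 = 1 := rfl
  have o01 : (1 : Matrix (Fin 2) (Fin 2) k) 0 1 = 0 := rfl
  have o10 : (1 : Matrix (Fin 2) (Fin 2) k) 1 0 = 0 := rfl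
  have o11 : (1 : Matrix (Fin 2) (Fin 2) k) 1 1 = 1 := rfl
  have h1 : g ᵥ* four D = 0 := by
    funext j
    have h2 : (g ᵥ* four D) j = g 0 * four D 0 j + g 1 * four D 1 j + g 2 * four D 2 j +
        g 3 * four D 3 j := by
      simp only [vecMul, dotProduct, Fin.sum_univ_four]
    rw [h2]
    fin_cases j
    · have := e 0 0
      rw [o00] at this
      exact this
    · have := e 0 1
      rw [o01] at this
      exact this
    · have := e 1 0
      rw [o10] at this
      exact this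
    · have := e 1 1
      rw [o11] at this
      exact this
  exact congrFun (Matrix.eq_zero_of_vecMul_eq_zero h h1)

theorem D1_four : (four D1).det ≠ 0 := by
  have h2 : four D1 * (four D1)ᵀ = (2 : ℂ) • 1 := by
    ext i j
    fin_cases i <;> fin_cases j <;> simp [four, D1, Matrix.mul_apply, Fin.sum_univ_four] <;>
      norm_num
  intro h0
  have h3 := congrArg Matrix.det h2
  rw [Matrix.det_mul, h0, zero_mul, Matrix.det_smul, Matrix.det_one] at h3
  norm_num at h3

/-- **`Good` outside a hypersurface.** -/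
theorem exists_Delta : ∃ Δ : MvPolynomial Idx ℂ, Δ ≠ 0 ∧ ∀ D : Dat ℂ,
    eval (coord D) Δ ≠ 0 → Good D ∧ LinearIndependent ℂ ![D.B, D.E, 1, D.N] := by
  set R := MvPolynomial Idx ℂ with hR
  set RO := MvPolynomial (Option Idx) ℂ with hRO
  set G : Dat R := ofCoord X with hG
  set GO : Dat RO := ofCoord (fun i => X (some i)) with hGO
  set S : R := G.s2 ![0, 0] with hS
  set P : RO := prd GO (X none) with hP
  obtain ⟨U, V, hUV⟩ := red S P
  set Δ₁ : R := U ^ 2 - S * V ^ 2 with hΔ₁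
  set Δ₂ : R := (four G).det with hΔ₂
  -- the value of `S`
  have hSv : ∀ D : Dat ℂ, aeval (coord D) S = D.s2 ![0, 0] := by
    intro D
    have h1 := map_s2 ((aeval (coord D) : R →ₐ[ℂ] ℂ) : R →+* ℂ) G ![0, 0]
    have h2 : G.map ((aeval (coord D) : R →ₐ[ℂ] ℂ) : R →+* ℂ) = D := by
      rw [hG, map_ofCoord]
      have h3 : (fun i => ((aeval (coord D) : R →ₐ[ℂ] ℂ) : R →+* ℂ) (X i)) = coord D :=
        funext fun i => aeval_X _ i
      rw [h3]
      rfl
    have h4 : (fun i => ((aeval (coord D) : R →ₐ[ℂ] ℂ) : R →+* ℂ) ((![0, 0] : Fin 2 → R) i)) =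
        ![0, 0] := by
      funext i
      fin_cases i <;> exact map_zero _
    rw [h2, h4] at h1
    exact h1.symm
  -- the value of `P`
  have hPv : ∀ (D : Dat ℂ) (s : ℂ),
      aeval (fun o : Option Idx => o.elim s (coord D)) P = prd D s := by
    intro D s
    set φ : RO →ₐ[ℂ] ℂ := aeval (fun o : Option Idx => o.elim s (coord D)) with hφ
    have h1 := map_prd (φ : RO →+* ℂ) GO (X none)
    have h2 : GO.map (φ : RO →+* ℂ) = D := by
      rw [hGO, map_ofCoord]
      have h3 : (fun i => (φ : RO →+* ℂ) (X (some i))) = coord D :=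
        funext fun i => aeval_X _ (some i)
      rw [h3]
      rfl
    have h5 : (φ : RO →+* ℂ) (X none) = s := aeval_X _ none
    rw [h2, h5] at h1
    exact h1.symm
  -- the value of `Δ₁`
  have hΔv : ∀ (D : Dat ℂ) (s : ℂ), s ^ 2 = D.s2 ![0, 0] →
      aeval (coord D) Δ₁ = prd D s * prd D (-s) := by
    intro D s hs
    have h1 := hUV ℂ (coord D) s (by rw [hs, hSv])
    have h2 := hUV ℂ (coord D) (-s) (by rw [neg_sq, hs, hSv])
    rw [hPv] at h1 h2
    rw [hΔ₁, map_sub, map_mul, map_pow, map_pow, hSv, ← hs, h1, h2]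
    ring
  have hΔ₂v : ∀ D : Dat ℂ, aeval (coord D) Δ₂ = (four D).det := by
    intro D
    have h2 : G.map ((aeval (coord D) : R →ₐ[ℂ] ℂ) : R →+* ℂ) = D := by
      rw [hG, map_ofCoord]
      have h3 : (fun i => ((aeval (coord D) : R →ₐ[ℂ] ℂ) : R →+* ℂ) (X i)) = coord D :=
        funext fun i => aeval_X _ i
      rw [h3]
      rfl
    have h1 := map_four ((aeval (coord D) : R →ₐ[ℂ] ℂ) : R →+* ℂ) G
    rw [h2] at h1
    rw [hΔ₂, h1]
    exact RingHom.map_det _ _
  have hval : ∀ D : Dat ℂ, ∀ Q : R, eval (coord D) Q = aeval (coord D) Q := fun D Q => rfl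
  refine ⟨Δ₁ * Δ₂, ?_, fun D hD => ?_⟩
  · intro h0
    have h1 : aeval (coord D1) (Δ₁ * Δ₂) = 0 := by rw [h0, map_zero]
    rw [map_mul, hΔv D1 2 (by rw [D1_s2]; norm_num), hΔ₂v] at h1
    exact mul_ne_zero (mul_ne_zero prd1 prd2) D1_four h1
  · rw [hval, map_mul] at hD
    have h1 := left_ne_zero_of_mul hD
    have h2 := right_ne_zero_of_mul hD
    obtain ⟨s, hs⟩ : ∃ s : ℂ, s ^ 2 = D.s2 ![0, 0] :=
      IsAlgClosed.exists_pow_nat_eq _ (by norm_num)
    rw [hΔv D s hs] at h1
    rw [hΔ₂v] at h2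
    exact ⟨good_of_prd D hs (left_ne_zero_of_mul h1), li_of_four h2⟩

end Pool.Agent.GSN
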