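import Pool.Agent.GSN.Top

set_option autoImplicit false

/-!
# GSN: the coordinates of the eigenvector are algebraically independent
-/

namespace Pool.Agent.GSN

open Matrix Pool.Agent.GSR IntermediateField

variable {k E : Type} [Field k] [Field E] [Algebra k E]

section Mem

variable (A : IntermediateField k E) (D : Dat k) {c : Fin 2 → E} {s : E} {z : Fin 3 → E}

theorem map_A : (D.map (algebraMap k A)).map (algebraMap A E) = D.map (algebraMap k E) := rfl

variable {A}

theorem MM_mem (hc : ∀ i, c i ∈ A) (hs : s ∈ A) (i j : Fin 3) :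
    MM (D.map (algebraMap k E)) c s i j ∈ A := by
  have h1 := map_MM (algebraMap A E) (D.map (algebraMap k A)) (fun i => ⟨c i, hc i⟩) ⟨s, hs⟩
  rw [map_A] at h1
  have h2 := congrFun (congrFun h1 i) j
  change MM (D.map (algebraMap k E)) c s i j = _ at h2
  rw [h2]
  exact SetLike.coe_mem _

theorem NN_mem (hc : ∀ i, c i ∈ A) (hs : s ∈ A) (i j : Fin 3) :
    NN (D.map (algebraMap k E)) c s i j ∈ A := by
  have h1 := map_NN (algebraMap A E) (D.map (algebraMap k A)) (fun i => ⟨c i, hc i⟩) ⟨s, hs⟩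
  rw [map_A] at h1
  have h2 := congrFun (congrFun h1 i) j
  change NN (D.map (algebraMap k E)) c s i j = _ at h2
  rw [h2]
  exact SetLike.coe_mem _

theorem pp_mem (hc : ∀ i, c i ∈ A) (hs : s ∈ A) (hz : ∀ i, z i ∈ A) (j : Fin 6) :
    pp (D.map (algebraMap k E)) c s z j ∈ A := by
  have h1 := map_pp (algebraMap A E) (D.map (algebraMap k A)) (fun i => ⟨c i, hc i⟩) ⟨s, hs⟩
    (fun i => ⟨z i, hz i⟩)
  rw [map_A] at h1
  have h2 := congrFun h1 j
  change pp (D.map (algebraMap k E)) c s z j = _ at h2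
  rw [h2]
  exact SetLike.coe_mem _

theorem Phi_mem (hc : ∀ i, c i ∈ A) (hs : s ∈ A) (hz : ∀ i, z i ∈ A) (j : Fin 3) :
    Phi (D.map (algebraMap k E)) c s z j ∈ A := by
  have h1 := map_Phi (algebraMap A E) (D.map (algebraMap k A)) (fun i => ⟨c i, hc i⟩) ⟨s, hs⟩
    (fun i => ⟨z i, hz i⟩)
  rw [map_A] at h1
  have h2 := congrFun h1 j
  change Phi (D.map (algebraMap k E)) c s z j = _ at h2
  rw [h2]
  exact SetLike.coe_mem _

theorem s2_mem (hc : ∀ i, c i ∈ A) : (D.map (algebraMap k E)).s2 c ∈ A := by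
  have h1 := map_s2 (algebraMap A E) (D.map (algebraMap k A)) (fun i => ⟨c i, hc i⟩)
  rw [map_A] at h1
  change (D.map (algebraMap k E)).s2 c = _ at h1
  rw [h1]
  exact SetLike.coe_mem _

end Mem

section Alg

variable {F : Type} [Field F]

theorem crs_prop {a b z : Fin 3 → F} (ha : a 0 * z 0 + a 1 * z 1 + a 2 * z 2 = 0)
    (hb : b 0 * z 0 + b 1 * z 1 + b 2 * z 2 = 0) (h : crs a b ≠ 0) :
    ∃ t : F, ∀ i, z i = t * crs a b i := by
  have h0 : crs a b 0 = a 1 * b 2 - a 2 * b 1 := rfl
  have h1 : crs a b 1 = a 2 * b 0 - a 0 * b 2 := rfl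
  have h2 : crs a b 2 = a 0 * b 1 - a 1 * b 0 := rfl
  obtain ⟨j, hj⟩ := Function.ne_iff.1 h
  have hj' : crs a b j ≠ 0 := hj
  refine ⟨z j / crs a b j, fun i => ?_⟩
  have key : ∀ i j : Fin 3, z i * crs a b j = z j * crs a b i := by
    intro i j
    fin_cases i <;> fin_cases j
    · rfl
    · change z 0 * crs a b 1 = z 1 * crs a b 0
      rw [h0, h1]
      linear_combination (-b 2) * ha + a 2 * hb
    · change z 0 * crs a b 2 = z 2 * crs a b 0
      rw [h0, h2]
      linear_combination b 1 * ha - a 1 * hb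
    · change z 1 * crs a b 0 = z 0 * crs a b 1
      rw [h0, h1]
      linear_combination b 2 * ha - a 2 * hb
    · rfl
    · change z 1 * crs a b 2 = z 2 * crs a b 1
      rw [h2, h1]
      linear_combination (-b 0) * ha + a 0 * hb
    · change z 2 * crs a b 0 = z 0 * crs a b 2
      rw [h0, h2]
      linear_combination (-b 1) * ha + a 1 * hb
    · change z 2 * crs a b 1 = z 1 * crs a b 2
      rw [h2, h1]
      linear_combination b 0 * ha - a 0 * hb
    · rfl
  rw [div_mul_eq_mul_div, eq_div_iff hj', key]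

theorem crs_zero {a b : Fin 3 → F} (h : crs a b = 0) (i j : Fin 3) : a i * b j = a j * b i := by
  have h0 : a 1 * b 2 - a 2 * b 1 = 0 := congrFun h 0
  have h1 : a 2 * b 0 - a 0 * b 2 = 0 := congrFun h 1
  have h2 : a 0 * b 1 - a 1 * b 0 = 0 := congrFun h 2
  fin_cases i <;> fin_cases j
  · rfl
  · change a 0 * b 1 = a 1 * b 0
    linear_combination h2
  · change a 0 * b 2 = a 2 * b 0
    linear_combination -h1
  · change a 1 * b 0 = a 0 * b 1
    linear_combination -h2
  · rfl
  · change a 1 * b 2 = a 2 * b 1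
    linear_combination h0
  · change a 2 * b 0 = a 0 * b 2
    linear_combination h1
  · change a 2 * b 1 = a 1 * b 2
    linear_combination -h0
  · rfl

theorem pp_smul (D : Dat F) (c : Fin 2 → F) (s a : F) (z : Fin 3 → F) (i : Fin 6) :
    pp D c s (fun j => a * z j) i = a * pp D c s z i := by
  simp only [pp]
  ring

theorem Phi_smul (D : Dat F) (c : Fin 2 → F) (s a : F) (z : Fin 3 → F) (i : Fin 3) :
    Phi D c s (fun j => a * z j) i = a ^ 2 * Phi D c s z i := by
  have h1 : ∀ (M : Matrix (Fin 3) (Fin 3) F) (j : Fin 3),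
      (M *ᵥ (fun j => a * z j)) j = a * (M *ᵥ z) j := by
    intro M j
    simp only [mulVec, dotProduct, Fin.sum_univ_three]
    ring
  fin_cases i <;>
  simp only [Phi, crs, h1, Matrix.cons_val, Fin.isValue, Fin.reduceFinMk, Fin.zero_eta,
    Fin.mk_one] <;>
  ring

end Alg

end Pool.Agent.GSN
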