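import Pool.Agent.GSN.Conf

set_option autoImplicit false

/-!
# GSN: `Phi ≠ 0`
-/

namespace Pool.Agent.GSN

open Matrix Pool.Agent.GSR IntermediateField

variable {k E : Type} [Field k] [Field E] [Algebra k E]
variable {D : Dat k} {σ : E ≃ₐ[k] E} {c : Fin 2 → E} {s : E} {v : Fin 6 → E}

/-- `σ` preserves the algebraic closure of `k(c₀, c₁)` -/
theorem clo_sig (σ : E ≃ₐ[k] E) {a b : E} (ha : σ a = a) (hb : σ b = b) (e : E)
    (he : e ∈ clo k a b) : σ e ∈ clo k a b := by
  rw [mem_clo] at he ⊢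
  have h1 : ∀ f ∈ adjoin k ({a, b} : Set E), σ f = f := by
    intro f hf
    have h2 : adjoin k ({a, b} : Set E) ≤
        IntermediateField.fixedField (Subgroup.closure {σ}) := by
      rw [adjoin_le_iff]
      intro t ht
      simp only [Set.mem_insert_iff, Set.mem_singleton_iff] at ht
      rw [SetLike.mem_coe, mem_fix]
      rcases ht with h | h <;> rw [h]
      · exact ha
      · exact hb
    exact (mem_fix σ f).1 (h2 hf)
  let φ : E →ₐ[adjoin k ({a, b} : Set E)] E :=
    { (σ : E →+* E) with commutes' := fun r => h1 _ r.2 }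
  exact he.algHom φ

theorem Conf.Phi_ne (h : Conf D σ c s v) {y : Fin 4 → E} (hy : AlgebraicIndependent k y)
    {z : Fin 3 → E} (hz0 : z ≠ 0) (hz : p0 D c s v = pp (D.map (algebraMap k E)) c s z)
    (hdet : (MM (D.map (algebraMap k E)) c s).det ≠ 0)
    (hres : res (MM (D.map (algebraMap k E)) c s) (NN (D.map (algebraMap k E)) c s) ≠ 0) :
    Phi (D.map (algebraMap k E)) c s z ≠ 0 := by
  intro h0
  set A := clo k (c 0) (c 1) with hA
  have hcA : ∀ i, c i ∈ A := by
    intro i
    fin_cases i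
    · exact left_mem_clo _ _
    · exact right_mem_clo _ _
  have hsA : s ∈ A := by
    apply clo_closed
    refine IsAlgebraic.of_pow (n := 2) (by norm_num) ?_
    rw [h.hs2]
    exact isAlgebraic_algebraMap (⟨_, s2_mem D hcA⟩ : A)
  obtain ⟨z0, z1, z2⟩ := pencil A (clo_closed _ _) (MM_mem D hcA hsA) (NN_mem D hcA hsA) hz0
    (fun i j => crs_zero h0 i j) hdet hres
  have htop : A = ⊤ := by
    refine top_of h.h2 D σ h.hσ h.hc h.hs h.hs0 h.hv h.gen A
      (fun e he => clo_sig σ (h.hc 0) (h.hc 1) e he) hcA hsA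
      (p := pp (D.map (algebraMap k E)) c s (fun j => (z 0)⁻¹ * z j)) ?_ ?_ (z := z 0) ?_
    · refine pp_mem D hcA hsA fun j => ?_
      fin_cases j
      · change (z 0)⁻¹ * z 0 ∈ A
        rw [inv_mul_cancel₀ z0]
        exact one_mem _
      · change (z 0)⁻¹ * z 1 ∈ A
        rw [mul_comm, ← div_eq_mul_inv]
        exact z1
      · change (z 0)⁻¹ * z 2 ∈ A
        rw [mul_comm, ← div_eq_mul_inv]
        exact z2
    · intro i
      have h1 : pp (D.map (algebraMap k E)) c s (fun j => (z 0)⁻¹ * z j) =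
          fun i => (z 0)⁻¹ * p0 D c s v i + 0 * p0 D c s v i := by
        funext i
        rw [pp_smul, ← hz]
        ring
      rw [h1, K_add', h.K_p0]
      ring
    · intro i
      rw [pp_smul, ← hz, ← mul_assoc, mul_inv_cancel₀ z0, one_mul]
      rfl
  refine alg_small hy (a := c 0) (b := c 1) fun e => ?_
  rw [← hA, htop]
  exact mem_top

end Pool.Agent.GSN
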