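import Pool.Agent.GSN.CaseA

set_option autoImplicit false

/-!
# GSN: algebraic independence of `c₀, c₁, z₁ / z₀, z₂ / z₀`
-/

namespace Pool.Agent.GSN

open Matrix Pool.Agent.GSR IntermediateField

variable {k E : Type} [Field k] [Field E] [Algebra k E]
variable {D : Dat k} {σ : E ≃ₐ[k] E} {c : Fin 2 → E} {s : E} {v : Fin 6 → E}

theorem three : ∀ i j : Fin 3, i = j ∨ i = j + 1 ∨ i = j + 2 := by decide

theorem Conf.ind_aux (h : Conf D σ c s v) {y : Fin 4 → E} (hy : AlgebraicIndependent k y)
    {z : Fin 3 → E} (hz : p0 D c s v = pp (D.map (algebraMap k E)) c s z) {t : E}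
    (ht : ∀ i, σ (z i) = t * Phi (D.map (algebraMap k E)) c s z i) (j : Fin 3) (hj : z j ≠ 0) :
    AlgebraicIndependent k ![c 0, c 1, z (j + 1) / z j, z (j + 2) / z j] := by
  set DE := D.map (algebraMap k E) with hDE
  set u : Fin 3 → E := fun i => (z j)⁻¹ * z i with hu
  set G : Set E := {c 0, c 1, s, u 0, u 1, u 2} with hG
  set T := adjoin k G with hT
  have hcT : ∀ i, c i ∈ T := by
    intro i
    apply subset_adjoin
    fin_cases i <;> simp [hG]
  have hsT : s ∈ T := by
    apply subset_adjoin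
    simp [hG]
  have huT : ∀ i, u i ∈ T := by
    intro i
    apply subset_adjoin
    fin_cases i <;> simp [hG]
  have hσj : σ (z j) ≠ 0 := by
    intro h0
    exact hj ((map_eq_zero σ).1 h0)
  have hPj : Phi DE c s z j ≠ 0 := by
    intro h0
    apply hσj
    rw [ht, h0, mul_zero]
  have ht0 : t ≠ 0 := by
    intro h0
    apply hσj
    rw [ht, h0, zero_mul]
  have hσu : ∀ i, σ (u i) ∈ T := by
    intro i
    have h1 : ∀ i, Phi DE c s u i = ((z j)⁻¹) ^ 2 * Phi DE c s z i := fun i =>
      Phi_smul DE c s (z j)⁻¹ z i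
    have h2 : σ (u i) = Phi DE c s u i / Phi DE c s u j := by
      rw [hu]
      simp only
      rw [map_mul, map_inv₀, ht, ht]
      have h3 : Phi DE c s (fun i => (z j)⁻¹ * z i) i = ((z j)⁻¹) ^ 2 * Phi DE c s z i := h1 i
      have h4 : Phi DE c s (fun i => (z j)⁻¹ * z i) j = ((z j)⁻¹) ^ 2 * Phi DE c s z j := h1 j
      rw [h3, h4]
      field_simp
    rw [h2]
    exact div_mem (Phi_mem D hcT hsT huT i) (Phi_mem D hcT hsT huT j)
  have hσT : ∀ e ∈ T, σ e ∈ T := by
    intro e he
    have h1 : T ≤ T.comap (σ : E →ₐ[k] E) := by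
      rw [hT, adjoin_le_iff]
      intro g hg
      change σ g ∈ T
      simp only [hG, Set.mem_insert_iff, Set.mem_singleton_iff] at hg
      rcases hg with h' | h' | h' | h' | h' | h' <;> rw [h']
      · rw [h.hc]; exact hcT 0
      · rw [h.hc]; exact hcT 1
      · rw [h.hs]; exact neg_mem hsT
      · exact hσu 0
      · exact hσu 1
      · exact hσu 2
    exact h1 he
  have htop : T = ⊤ := by
    refine top_of h.h2 D σ h.hσ h.hc h.hs h.hs0 h.hv h.gen T hσT hcT hsT
      (p := pp DE c s u) (pp_mem D hcT hsT huT) ?_ (z := z j) ?_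
    · intro i
      have h1 : pp DE c s u = fun i => (z j)⁻¹ * p0 D c s v i + 0 * p0 D c s v i := by
        funext i
        have h3 : pp DE c s u i = (z j)⁻¹ * pp DE c s z i := pp_smul DE c s (z j)⁻¹ z i
        rw [h3, ← hz]
        ring
      rw [h1, K_add', h.K_p0]
      ring
    · intro i
      have h3 : pp DE c s u i = (z j)⁻¹ * pp DE c s z i := pp_smul DE c s (z j)⁻¹ z i
      rw [h3, ← hz, ← mul_assoc, mul_inv_cancel₀ hj, one_mul]
      rfl
  -- `E` is algebraic over the four elements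
  set x : Fin 4 → E := ![c 0, c 1, z (j + 1) / z j, z (j + 2) / z j] with hx
  refine ind_of_alg hy ⟨fun e => ?_⟩
  set F := adjoin k (Set.range x) with hF
  have hxF : ∀ i, x i ∈ F := fun i => subset_adjoin k _ ⟨i, rfl⟩
  set C : IntermediateField k E := (algebraicClosure F E).restrictScalars k with hC
  have mC : ∀ e, e ∈ C ↔ IsAlgebraic F e := fun e => by
    rw [hC, IntermediateField.mem_restrictScalars, mem_algebraicClosure_iff]
  have hFC : ∀ e ∈ F, e ∈ C := fun e he => (mC e).2 (isAlgebraic_algebraMap (⟨e, he⟩ : F))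
  have hcF : ∀ i, c i ∈ F := by
    intro i
    fin_cases i
    · exact hxF 0
    · exact hxF 1
  have huF : ∀ i, u i ∈ F := by
    have e0 : u j = 1 := by
      rw [hu]
      exact inv_mul_cancel₀ hj
    have e1 : u (j + 1) = x 2 := by
      change (z j)⁻¹ * z (j + 1) = z (j + 1) / z j
      rw [div_eq_mul_inv, mul_comm]
    have e2 : u (j + 2) = x 3 := by
      change (z j)⁻¹ * z (j + 2) = z (j + 2) / z j
      rw [div_eq_mul_inv, mul_comm]
    have f0 : u j ∈ F := by rw [e0]; exact one_mem F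
    have f1 : u (j + 1) ∈ F := by rw [e1]; exact hxF 2
    have f2 : u (j + 2) ∈ F := by rw [e2]; exact hxF 3
    intro i
    rcases three i j with h' | h' | h' <;> rw [h']
    · exact f0
    · exact f1
    · exact f2
  have hsC : s ∈ C := by
    rw [mC]
    refine IsAlgebraic.of_pow (n := 2) (by norm_num) ?_
    rw [h.hs2]
    exact isAlgebraic_algebraMap (⟨_, s2_mem D hcF⟩ : F)
  have hTC : T ≤ C := by
    rw [hT, adjoin_le_iff]
    intro g hg
    simp only [hG, Set.mem_insert_iff, Set.mem_singleton_iff] at hg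
    rw [SetLike.mem_coe]
    rcases hg with h' | h' | h' | h' | h' | h' <;> rw [h']
    · exact hFC _ (hcF 0)
    · exact hFC _ (hcF 1)
    · exact hsC
    · exact hFC _ (huF 0)
    · exact hFC _ (huF 1)
    · exact hFC _ (huF 2)
  have he : e ∈ T := by
    rw [htop]
    exact mem_top
  exact (mC e).1 (hTC he)

/-- the coordinates are algebraically independent -/
theorem Conf.ind (h : Conf D σ c s v) {y : Fin 4 → E} (hy : AlgebraicIndependent k y)
    {z : Fin 3 → E} (hz0 : z ≠ 0) (hz : p0 D c s v = pp (D.map (algebraMap k E)) c s z) {t : E}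
    (ht : ∀ i, σ (z i) = t * Phi (D.map (algebraMap k E)) c s z i) :
    z 0 ≠ 0 ∧ AlgebraicIndependent k ![c 0, c 1, z 1 / z 0, z 2 / z 0] := by
  have h0 : z 0 ≠ 0 := by
    obtain ⟨j, hj⟩ := Function.ne_iff.1 hz0
    have hj' : z j ≠ 0 := hj
    have h1 := h.ind_aux hy hz ht j hj'
    fin_cases j
    · exact hj'
    · have h2 := h1.ne_zero 3
      intro h0
      apply h2
      change z 0 / z 1 = 0
      rw [h0, zero_div]
    · have h2 := h1.ne_zero 2
      intro h0
      apply h2
      change z 0 / z 2 = 0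
      rw [h0, zero_div]
  exact ⟨h0, h.ind_aux hy hz ht 0 h0⟩

end Pool.Agent.GSN
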