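import Pool.Agent.GSN.Case

set_option autoImplicit false

/-!
# GSN: the configuration of the generic point and its eigenvectors
-/

namespace Pool.Agent.GSN

open Matrix Pool.Agent.GSR IntermediateField

variable {k E : Type} [Field k] [Field E] [Algebra k E]

/-- `v` is fixed by `σ`, satisfies the two equations, and generates the field of fixed elements. -/
structure Conf (D : Dat k) (σ : E ≃ₐ[k] E) (c : Fin 2 → E) (s : E) (v : Fin 6 → E) : Prop where
  h2 : (2 : E) ≠ 0
  hσ : ∀ e, σ (σ e) = e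
  hc : ∀ i, σ (c i) = c i
  hs : σ s = -s
  hs0 : s ≠ 0
  hs2 : s ^ 2 = (D.map (algebraMap k E)).s2 c
  hv : ∀ i, σ (v i) = v i
  hv0 : v ≠ 0
  hO : (D.map (algebraMap k E)).IsO c v
  gen : ∀ T : IntermediateField k E, (∀ t ∈ T, σ t = t) → (∀ i, c i ∈ T) →
    ∀ (v' : Fin 6 → E) (α β : E), (∀ i, v' i ∈ T) → σ α = α → σ β = β →
    (∀ i, v i = α * v' i + β * (D.map (algebraMap k E)).K c v' i) → ∀ e, σ e = e → e ∈ T

variable {D : Dat k} {σ : E ≃ₐ[k] E} {c : Fin 2 → E} {s : E} {v : Fin 6 → E}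

/-- the eigenvector -/
def p0 (D : Dat k) (c : Fin 2 → E) (s : E) (v : Fin 6 → E) : Fin 6 → E :=
  fun i => s * v i + (D.map (algebraMap k E)).K c v i

theorem Conf.K_p0 (h : Conf D σ c s v) (i : Fin 6) :
    (D.map (algebraMap k E)).K c (p0 D c s v) i = s * p0 D c s v i := by
  have h1 := K_add' (D.map (algebraMap k E)) c s 1 v ((D.map (algebraMap k E)).K c v) i
  simp only [one_mul] at h1
  have h3 : (D.map (algebraMap k E)).K c (p0 D c s v) i = _ := h1
  rw [h3, Dat.K_K, ← h.hs2]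
  simp only [p0]
  ring

theorem Conf.sig_K (h : Conf D σ c s v) (i : Fin 6) :
    σ ((D.map (algebraMap k E)).K c v i) = (D.map (algebraMap k E)).K c v i := by
  have h4 := congrFun (K_sig σ D h.hc v) i
  simp only [h.hv] at h4
  exact h4.symm

theorem Conf.sig_p0 (h : Conf D σ c s v) (i : Fin 6) :
    σ (p0 D c s v i) = -(s * v i) + (D.map (algebraMap k E)).K c v i := by
  simp only [p0]
  rw [map_add, map_mul, h.hs, h.hv, h.sig_K]
  ring

theorem Conf.p0_ne (h : Conf D σ c s v) : p0 D c s v ≠ 0 := by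
  intro h0
  apply h.hv0
  funext i
  have h1 : s * v i + (D.map (algebraMap k E)).K c v i = 0 := congrFun h0 i
  have h2 := h.sig_p0 i
  rw [h0, Pi.zero_apply, map_zero] at h2
  have h3 : 2 * s * v i = 0 := by linear_combination h1 + h2
  exact (mul_eq_zero.1 h3).resolve_left (mul_ne_zero h.h2 h.hs0)

theorem tau_self (D : Dat E) (c : Fin 2 → E) (v : Fin 6 → E) : D.tau c v v = 0 := by
  have h0 : D.tau0 v v = 0 := by
    simp only [Dat.tau0, sub_self, mul_zero, Finset.sum_const_zero]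
  simp only [Dat.tau, Dat.ta, Dat.tb, h0]
  ring

theorem Conf.w_p0 (h : Conf D σ c s v) :
    w (p0 D c s v) (fun i => σ (p0 D c s v i)) = 0 := by
  have h1 := h.hO.1
  have h2 : (fun i => σ (p0 D c s v i)) =
      fun i => -(s * v i) + (D.map (algebraMap k E)).K c v i := funext h.sig_p0
  rw [h2]
  simp only [w, bl, p0] at h1 ⊢
  linear_combination 2 * s * h1

theorem Conf.tau_p0 (h : Conf D σ c s v) :
    (D.map (algebraMap k E)).tau c (p0 D c s v) (fun i => σ (p0 D c s v i)) = 0 := by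
  have h1 := h.hO.2
  set DE := D.map (algebraMap k E) with hDE
  have h2 : (fun i => σ (p0 D c s v i)) =
      fun i => -s * v i + 1 * DE.K c v i + 0 * v i := by
    funext i
    rw [h.sig_p0 i]
    ring
  have h3 : p0 D c s v = fun i => s * v i + 1 * DE.K c v i + 0 * v i := by
    funext i
    simp only [p0]
    ring
  rw [h2, h3, tau_lin, tau_anti DE c v, tau_anti DE c (DE.K c v), tau_lin, tau_lin, tau_self,
    tau_self, tau_anti DE c (DE.K c v) v, h1]
  ring

/-- the coordinates of the eigenvector -/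
theorem Conf.exists_z (h : Conf D σ c s v) (hB : D.B.det ≠ 0)
    (hW : WW (D.map (algebraMap k E)) c s 0 0 ≠ 0) :
    ∃ z : Fin 3 → E, z ≠ 0 ∧ p0 D c s v = pp (D.map (algebraMap k E)) c s z ∧
      (fun i => σ (p0 D c s v i)) = pp (D.map (algebraMap k E)) c (-s) (fun j => σ (z j)) ∧
      (MM (D.map (algebraMap k E)) c s *ᵥ z) 0 * σ (z 0) +
        (MM (D.map (algebraMap k E)) c s *ᵥ z) 1 * σ (z 1) +
        (MM (D.map (algebraMap k E)) c s *ᵥ z) 2 * σ (z 2) = 0 ∧
      (NN (D.map (algebraMap k E)) c s *ᵥ z) 0 * σ (z 0) +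
        (NN (D.map (algebraMap k E)) c s *ᵥ z) 1 * σ (z 1) +
        (NN (D.map (algebraMap k E)) c s *ᵥ z) 2 * σ (z 2) = 0 := by
  have hB' : (D.map (algebraMap k E)).B.det ≠ 0 := by
    have h1 : (D.map (algebraMap k E)).B.det = algebraMap k E D.B.det := map_det' _ _
    rw [h1]
    exact (map_ne_zero _).2 hB
  have h1 := exists_pp h.h2 (D.map (algebraMap k E)) c s hB' hW (p0 D c s v) h.K_p0
  set z : Fin 3 → E := ![p0 D c s v 5 / (2 * (D.map (algebraMap k E)).B.det),
    p0 D c s v 0 / ((D.map (algebraMap k E)).B.det * WW (D.map (algebraMap k E)) c s 0 0),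
    p0 D c s v 2 / ((D.map (algebraMap k E)).B.det * WW (D.map (algebraMap k E)) c s 0 0)]
    with hz
  have h2 : (fun i => σ (p0 D c s v i)) =
      pp (D.map (algebraMap k E)) c (-s) (fun j => σ (z j)) := by
    have h3 := map_pp (σ : E →+* E) (D.map (algebraMap k E)) c s z
    have h4 : (fun i => (σ : E →+* E) (c i)) = c := funext h.hc
    have h5 : (σ : E →+* E) s = -s := h.hs
    rw [map_sig, h4, h5] at h3
    rw [h1]
    exact h3.symm
  refine ⟨z, ?_, h1, h2, ?_, ?_⟩
  · intro h0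
    apply h.p0_ne
    rw [h1, h0]
    funext i
    simp only [pp, Pi.zero_apply]
    ring
  · have h6 := w_pp_pp (D.map (algebraMap k E)) c s z (fun j => σ (z j))
    rw [← h1, ← h2, h.w_p0] at h6
    exact h6.symm
  · have h6 := tau_pp_pp (D.map (algebraMap k E)) c s z (fun j => σ (z j))
    rw [← h1, ← h2, h.tau_p0] at h6
    exact h6.symm

end Pool.Agent.GSN
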