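import Pool.Agent.GSN.Maps

set_option autoImplicit false

/-!
# GSN: a datum which is `Good`

`D1` is `Good` at the point `c = 0`, `m = n = 1` for both square roots `s = 2`, `s = -2` of `s2`.
-/

namespace Pool.Agent.GSN

open Matrix Pool.Agent.GSR

/-- a small datum -/
def D1 : Dat ℂ where
  B := !![0, 1; -1, 0]
  N := !![0, 1; 1, 0]
  E := !![-1, 0; 0, 1]
  γ := ![0, -1, 0, 0]
  δ := ![0, 0, -1, 0]
  t := fun i j => if i = 1 ∧ j = 5 then 1 else if i = 2 ∧ j = 3 then -1 else 0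

theorem D1_Z : D1.Z ![0, 0] = !![-1, 0; 0, 1] := by
  ext i j
  fin_cases i <;> fin_cases j <;> simp [Dat.Z, D1]

theorem D1_X : D1.χ ![0, 0] = ![0, 0, -1, 0] := by
  funext i
  fin_cases i <;> simp [Dat.χ, D1]

theorem D1_B : D1.B = !![0, 1; -1, 0] := rfl

theorem D1_det : D1.B.det = 1 := by
  rw [D1_B]
  simp

theorem D1_mix : mix D1.B (D1.Z ![0, 0]) = 0 := by
  rw [D1_B, D1_Z]
  simp [mix]

theorem D1_s2 : D1.s2 ![0, 0] = 4 := by
  rw [Dat.s2, D1_B, D1_Z]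
  simp [disc, mix]

theorem D1_W1 : WW D1 ![0, 0] 2 = !![2, -2; 2, -2] := by
  ext i j
  rw [WW, D1_mix, D1_det, D1_B, D1_Z]
  fin_cases i <;> fin_cases j <;> simp

theorem D1_W2 : WW D1 ![0, 0] (-2) = !![2, 2; -2, -2] := by
  ext i j
  rw [WW, D1_mix, D1_det, D1_B, D1_Z]
  fin_cases i <;> fin_cases j <;> simp

theorem D1_h1 : hh D1 ![0, 0] 2 =
    ![![0, 0, 0, 0, -2, 2], ![2, -2, 0, 0, 0, 0], ![0, 0, 2, 2, 2, 0]] := by
  rw [hh, D1_W1, D1_mix, D1_det, D1_B, D1_X]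
  funext i j
  fin_cases i <;> fin_cases j <;> simp [ln, Matrix.adjugate_fin_two]

theorem D1_h2 : hh D1 ![0, 0] (-2) =
    ![![0, 0, 0, 0, 2, 2], ![2, 2, 0, 0, 0, 0], ![0, 0, 2, -2, -2, 0]] := by
  rw [hh, D1_W2, D1_mix, D1_det, D1_B, D1_X]
  funext i j
  fin_cases i <;> fin_cases j <;> simp [ln, Matrix.adjugate_fin_two]

theorem D1_M1 : MM D1 ![0, 0] 2 = !![-8, 0, 4; 0, 0, -8; 4, 8, 0] := by
  ext i j
  simp only [MM, D1_h1, D1_h2]
  fin_cases i <;> fin_cases j <;> simp [w, bl] <;> norm_num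

theorem D1_N1 : NN D1 ![0, 0] 2 = !![0, -4, 0; -4, 0, 0; 0, 0, 8] := by
  ext i j
  simp only [NN, D1_h1, D1_h2]
  fin_cases i <;> fin_cases j <;>
    simp [Dat.tau, Dat.tau0, Dat.ta, Dat.tb, D1, bl, ln, Fin.sum_univ_succ,
      Matrix.adjugate_fin_two, Matrix.det_fin_two] <;> norm_num

theorem D1_M2 : MM D1 ![0, 0] (-2) = !![8, 0, -4; 0, 0, -8; -4, 8, 0] := by
  ext i j
  simp only [MM, neg_neg, D1_h1, D1_h2]
  fin_cases i <;> fin_cases j <;> simp [w, bl] <;> norm_num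

theorem D1_N2 : NN D1 ![0, 0] (-2) = !![0, 4, 0; 4, 0, 0; 0, 0, -8] := by
  ext i j
  simp only [NN, neg_neg, D1_h1, D1_h2]
  fin_cases i <;> fin_cases j <;>
    simp [Dat.tau, Dat.tau0, Dat.ta, Dat.tb, D1, bl, ln, Fin.sum_univ_succ,
      Matrix.adjugate_fin_two, Matrix.det_fin_two] <;> norm_num

theorem D1_p1 : pp D1 ![0, 0] 2 ![1, 1, 1] = ![2, -2, 2, 2, 0, 2] := by
  funext i
  simp only [pp, D1_h1]
  fin_cases i <;> simp

theorem D1_p2 : pp D1 ![0, 0] (-2) ![1, 1, 1] = ![2, 2, 2, -2, 0, 2] := by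
  funext i
  simp only [pp, D1_h2]
  fin_cases i <;> simp

theorem D1_Phi1 : Phi D1 ![0, 0] 2 ![1, 1, 1] = ![-16, -16, -16] := by
  rw [Phi, D1_M1, D1_N1]
  funext i
  fin_cases i <;> simp [crs, Matrix.vecHead, Matrix.vecTail] <;> norm_num

theorem D1_Phi2 : Phi D1 ![0, 0] (-2) ![1, 1, 1] = ![48, 48, 48] := by
  rw [Phi, D1_M2, D1_N2]
  funext i
  fin_cases i <;> simp [crs, Matrix.vecHead, Matrix.vecTail] <;> norm_num

theorem D1_q1 : qq D1 ![0, 0] 2 ![1, 1, 1] = ![-32, -32, -32, 32, 0, -32] := by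
  rw [qq, D1_Phi1]
  funext i
  simp only [pp, D1_h2]
  fin_cases i <;> simp <;> norm_num

theorem D1_q2 : qq D1 ![0, 0] (-2) ![1, 1, 1] = ![96, -96, 96, 96, 0, 96] := by
  rw [qq, D1_Phi2, neg_neg]
  funext i
  simp only [pp, D1_h1]
  fin_cases i <;> simp <;> norm_num

theorem D1_v1 : v3 D1 ![0, 0] 2 ![1, 1, 1] =
    fun i => (-65536) * (![1, 0, 1, 0, 0, 1] : Fin 6 → ℂ) i := by
  have h1 : D1.f21 ![-32, -32, -32, 32, 0, -32] ![2, -2, 2, 2, 0, 2] = -16384 := by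
    simp [Dat.f21, D1, ln, bl, Matrix.adjugate_fin_two, Matrix.mul_apply, Fin.sum_univ_two]
    norm_num
  have h2 : D1.f21 ![2, -2, 2, 2, 0, 2] ![-32, -32, -32, 32, 0, -32] = -1024 := by
    simp [Dat.f21, D1, ln, bl, Matrix.adjugate_fin_two, Matrix.mul_apply, Fin.sum_univ_two]
    norm_num
  funext i
  rw [v3, D1_p1, D1_q1, h1, h2]
  fin_cases i <;> simp <;> norm_num

theorem D1_v2 : v3 D1 ![0, 0] (-2) ![1, 1, 1] =
    fun i => 589824 * (![1, 0, 1, 0, 0, 1] : Fin 6 → ℂ) i := by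
  have h1 : D1.f21 ![96, -96, 96, 96, 0, 96] ![2, 2, 2, -2, 0, 2] = 147456 := by
    simp [Dat.f21, D1, ln, bl, Matrix.adjugate_fin_two, Matrix.mul_apply, Fin.sum_univ_two]
    norm_num
  have h2 : D1.f21 ![2, 2, 2, -2, 0, 2] ![96, -96, 96, 96, 0, 96] = -3072 := by
    simp [Dat.f21, D1, ln, bl, Matrix.adjugate_fin_two, Matrix.mul_apply, Fin.sum_univ_two]
    norm_num
  funext i
  rw [v3, D1_p2, D1_q2, h1, h2]
  fin_cases i <;> simp <;> norm_num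

theorem D1_hP : D1.hP ![1, 0, 1, 0, 0, 1] = 256 := by
  have e0 : D1.e0 ![1, 0, 1, 0, 0, 1] = ![0, -1, 0, 1, 0, 0] := by
    funext i
    fin_cases i <;> simp [Dat.e0, ev, ew, D1, ln, bl, Matrix.adjugate_fin_two,
      Matrix.mul_apply, Fin.sum_univ_two]
  have e1 : D1.e1 ![1, 0, 1, 0, 0, 1] = ![0, -1, 0, 1, 0, 0] := by
    funext i
    fin_cases i <;> simp [Dat.e1, ew, D1, ln, bl, Matrix.adjugate_fin_two,
      Matrix.mul_apply, Fin.sum_univ_two]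
  have e2 : D1.e2 ![1, 0, 1, 0, 0, 1] = ![-2, 0, 0, 0, 2, 0] := by
    funext i
    fin_cases i <;> simp [Dat.e2, ew, D1, ln, bl, Matrix.adjugate_fin_two,
      Matrix.mul_apply, Fin.sum_univ_two] <;> norm_num
  have m : D1.m ![1, 0, 1, 0, 0, 1] = -2 := by
    rw [Dat.m, e1, e2]
    simp
  have p0 : D1.p0 ![1, 0, 1, 0, 0, 1] = -2 := by
    rw [Dat.p0, e0, e2]
    simp
  have p1 : D1.p1 ![1, 0, 1, 0, 0, 1] = 0 := by
    rw [Dat.p1, e0, e1]
    simp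
  have rh : D1.rho ![1, 0, 1, 0, 0, 1] = 2 := by
    simp [Dat.rho, D1, ln, bl, Matrix.adjugate_fin_two]
    norm_num
  have m0 : D1.hM0 ![1, 0, 1, 0, 0, 1] = 0 := by
    rw [Dat.hM0, m, p0, p1, rh, e1]
    simp [Dat.tau0, Dat.ta, Dat.tb, Dat.hA0, D1, ln, bl, Matrix.adjugate_fin_two,
      Fin.sum_univ_succ, Matrix.det_fin_two]
    norm_num
  have m1 : D1.hM1 ![1, 0, 1, 0, 0, 1] = 8 := by
    rw [Dat.hM1, m, p0, p1, rh, e2]
    simp [Dat.tau0, Dat.ta, Dat.tb, Dat.hA1, D1, ln, bl, Matrix.adjugate_fin_two,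
      Fin.sum_univ_succ, Matrix.det_fin_two, mix]
    norm_num
  rw [Dat.hP, m, m0, m1]
  simp [Dat.hLam, D1, ln, bl, Matrix.adjugate_fin_two]
  norm_num

/-- `D1` is good. -/
theorem good_ex : Good D1 := by
  refine ⟨![0, 0], 2, 1, 1, ?_, ?_, ?_, ?_, ?_, ?_⟩
  · rw [D1_s2]
    norm_num
  · rw [D1_det]
    norm_num
  · rw [D1_W1]
    norm_num
  · rw [D1_M1]
    simp [Matrix.det_fin_three]
  · rw [D1_M1, D1_N1]
    simp [res]
  · rw [D1_v1, NDegH_smul _ _ (by norm_num), Dat.NDegH, D1_hP]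
    norm_num

theorem D1_li : LinearIndependent ℂ ![D1.B, D1.E, 1, D1.N] := by
  rw [Fintype.linearIndependent_iff]
  intro g hg
  simp only [Fin.sum_univ_four, Matrix.cons_val, Fin.isValue] at hg
  have h00 := congrFun (congrFun hg 0) 0
  have h01 := congrFun (congrFun hg 0) 1
  have h10 := congrFun (congrFun hg 1) 0
  have h11 := congrFun (congrFun hg 1) 1
  simp [D1] at h00 h01 h10 h11
  intro i
  fin_cases i
  · change g 0 = 0
    linear_combination (1 / 2 : ℂ) * h01 - (1 / 2 : ℂ) * h10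
  · change g 1 = 0
    linear_combination (1 / 2 : ℂ) * h11 - (1 / 2 : ℂ) * h00
  · change g 2 = 0
    linear_combination (1 / 2 : ℂ) * h11 + (1 / 2 : ℂ) * h00
  · change g 3 = 0
    linear_combination (1 / 2 : ℂ) * h01 + (1 / 2 : ℂ) * h10

end Pool.Agent.GSN
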