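import Mathlib

set_option autoImplicit false

/-!
# GSN: adjoining a square root
-/

namespace Pool.Agent.GSN

open QuadraticAlgebra

theorem exists_ext {k Ω : Type} [Field k] [Field Ω] [Algebra k Ω] (h2 : (2 : Ω) ≠ 0) {d : Ω}
    (hd : ¬ IsSquare d) :
    ∃ (E : Type) (_ : Field E) (_ : Algebra k E) (_ : Algebra Ω E) (_ : IsScalarTower k Ω E)
      (s : E) (σ : E ≃ₐ[k] E), s ^ 2 = algebraMap Ω E d ∧ σ s = -s ∧ (∀ e, σ (σ e) = e) ∧
      (∀ a : Ω, σ (algebraMap Ω E a) = algebraMap Ω E a) ∧
      ∀ e, σ e = e → ∃ a : Ω, algebraMap Ω E a = e := by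
  have : Fact (∀ r : Ω, r ^ 2 ≠ d + 0 * r) := ⟨fun r hr => hd ⟨r, by
    rw [zero_mul, add_zero] at hr
    rw [← hr, pow_two]⟩⟩
  have hss : ∀ e : QuadraticAlgebra Ω d 0, star (star e) = e := fun e => star_star e
  have hre : ∀ e : QuadraticAlgebra Ω d 0, (star e).re = e.re := fun e => by
    rw [re_star, zero_mul, add_zero]
  have him : ∀ e : QuadraticAlgebra Ω d 0, (star e).im = -e.im := fun e => im_star e
  have hmul : ∀ x y : QuadraticAlgebra Ω d 0, star (x * y) = star x * star y := fun x y => by
    rw [star_mul, mul_comm]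
  let σ : QuadraticAlgebra Ω d 0 ≃ₐ[k] QuadraticAlgebra Ω d 0 :=
    { toFun := star
      invFun := star
      left_inv := hss
      right_inv := hss
      map_mul' := hmul
      map_add' := star_add
      commutes' := fun r => by
        apply QuadraticAlgebra.ext
        · rw [hre]
        · rw [him]
          have h1 : (algebraMap k (QuadraticAlgebra Ω d 0) r).im = 0 := rfl
          rw [h1, neg_zero] }
  refine ⟨QuadraticAlgebra Ω d 0, inferInstance, inferInstance, inferInstance, inferInstance,
    ⟨0, 1⟩, σ, ?_, ?_, hss, ?_, ?_⟩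
  · rw [pow_two]
    apply QuadraticAlgebra.ext
    · simp
    · simp
  · apply QuadraticAlgebra.ext
    · change (star (⟨0, 1⟩ : QuadraticAlgebra Ω d 0)).re = _
      rw [hre]
      simp
    · change (star (⟨0, 1⟩ : QuadraticAlgebra Ω d 0)).im = _
      rw [him]
      simp
  · intro a
    apply QuadraticAlgebra.ext
    · exact hre _
    · change (star (algebraMap Ω (QuadraticAlgebra Ω d 0) a)).im = _
      rw [him]
      simp
  · intro e he
    refine ⟨e.re, QuadraticAlgebra.ext ?_ ?_⟩
    · simp
    · have h1 : (star e).im = e.im := congrArg QuadraticAlgebra.im he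
      rw [him] at h1
      have h3 : e.im * 2 = 0 := by linear_combination -h1
      have h4 := (mul_eq_zero.1 h3).resolve_right h2
      rw [h4]
      simp

end Pool.Agent.GSN
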