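import Pool.Agent.GSN.Main
import Pool.Agent.GSN.Ext

set_option autoImplicit false

/-!
# GSN: the non-degeneracy theorem
-/

namespace Pool.Agent.GSN

open Matrix Pool.Agent.GSR IntermediateField

variable {k Ω : Type} [Field k] [Field Ω] [Algebra k Ω]

theorem map_third {F F' : Type} [CommRing F] [CommRing F'] (f : F →+* F') (D : Dat F)
    (c : Fin 2 → F) (v : Fin 6 → F) :
    (D.map f).third (fun i => f (c i)) (fun i => f (v i)) = fun i => f (D.third c v i) := by
  funext i
  simp only [Dat.third, D.map_K f, D.map_f3 f, map_s2, map_add, map_mul]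

/-- **Non-degeneracy of the third point.** `c₀, c₁` algebraically independent in `Ω`, `Ω` of
transcendence degree at least four, `v` a solution of the two equations over `c` which generates
`Ω`, `s2 c` not a square in `Ω`. If `D` is `Good`, the third point of `v` is not degenerate. -/
theorem ndeg_main [CharZero k] (D : Dat k) (hD : Good D) {c : Fin 2 → Ω}
    (hc : AlgebraicIndependent k c) {y : Fin 4 → Ω} (hy : AlgebraicIndependent k y)
    (hsq : ¬ IsSquare ((D.map (algebraMap k Ω)).s2 c)) (v : Fin 6 → Ω) (hv : v ≠ 0)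
    (hO : (D.map (algebraMap k Ω)).IsO c v)
    (gen : ∀ T : IntermediateField k Ω, (∀ i, c i ∈ T) →
      (∃ (v' : Fin 6 → Ω) (α β : Ω), (∀ i, v' i ∈ T) ∧ ∀ i, v i = α * v' i +
        β * (D.map (algebraMap k Ω)).K c v' i) → T = ⊤) :
    (D.map (algebraMap k Ω)).NDegH ((D.map (algebraMap k Ω)).third c v) := by
  have h2 : (2 : Ω) ≠ 0 := by
    have : (algebraMap k Ω) 2 ≠ 0 := (map_ne_zero _).2 two_ne_zero
    rwa [map_ofNat] at this
  obtain ⟨E, _, _, _, _, s, σ, hs2, hs, hσ, hσΩ, hfix⟩ := exists_ext (k := k) h2 hsq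
  set j : Ω →+* E := algebraMap Ω E with hj
  have hjD : (D.map (algebraMap k Ω)).map j = D.map (algebraMap k E) := by
    rw [map_map]
    congr 1
    funext x
    exact (IsScalarTower.algebraMap_apply k Ω E x).symm
  have hinj : Function.Injective j := j.injective
  have hcE : AlgebraicIndependent k (fun i => j (c i)) :=
    hc.map' (f := IsScalarTower.toAlgHom k Ω E) hinj
  have hyE : AlgebraicIndependent k (fun i => j (y i)) :=
    hy.map' (f := IsScalarTower.toAlgHom k Ω E) hinj
  have hs2' : s ^ 2 = (D.map (algebraMap k E)).s2 (fun i => j (c i)) := by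
    rw [hs2, ← hjD, map_s2]
  have hconf : Conf D σ (fun i => j (c i)) s (fun i => j (v i)) := by
    refine ⟨?_, hσ, fun i => hσΩ _, hs, ?_, hs2', fun i => hσΩ _, ?_, ?_, ?_⟩
    · have := (map_ne_zero j).2 h2
      rwa [map_ofNat] at this
    · intro h0
      apply hsq
      have h1 : (D.map (algebraMap k Ω)).s2 c = 0 := by
        apply hinj
        rw [map_zero, ← hs2, h0]
        ring
      rw [h1]
      exact IsSquare.zero
    · intro h0
      apply hv
      funext i
      apply hinj
      have h1 := congrFun h0 i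
      simp only [Pi.zero_apply] at h1
      rw [h1, Pi.zero_apply, map_zero]
    · have h1 := Dat.map_isO j (D.map (algebraMap k Ω)) c v hO
      rw [hjD] at h1
      exact h1
    · intro T hT hcT v' α β hv' hα hβ hvv e he
      set T' : IntermediateField k Ω := T.comap (IsScalarTower.toAlgHom k Ω E) with hT'
      have mT' : ∀ a : Ω, a ∈ T' ↔ j a ∈ T := fun a => Iff.rfl
      obtain ⟨α', hα'⟩ := hfix α hα
      obtain ⟨β', hβ'⟩ := hfix β hβ
      choose v'' hv'' using fun i => hfix (v' i) (hT _ (hv' i))
      have hv3 : v' = fun i => j (v'' i) := funext fun i => (hv'' i).symm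
      have htop : T' = ⊤ := by
        refine gen T' (fun i => (mT' _).2 (hcT i)) ⟨v'', α', β', fun i => ?_, fun i => ?_⟩
        · rw [mT', hj, hv'']
          exact hv' i
        · apply hinj
          have h1 := hvv i
          rw [h1, ← hα', ← hβ', hv3, ← hjD, Dat.map_K, map_add, map_mul, map_mul]
      obtain ⟨a, ha⟩ := hfix e he
      rw [← ha]
      refine (mT' a).1 ?_
      rw [htop]
      exact mem_top
  have h3 := hconf.ndeg hD hcE hyE
  rw [← hjD, map_third, Dat.NDegH, Dat.map_hP] at h3
  exact fun h0 => h3 (by rw [h0, map_zero])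

end Pool.Agent.GSN
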