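import Pool.Agent.GSR.Third
import Pool.Agent.GSR.RMain

set_option autoImplicit false

/-!
# GSN: the third point of the line through two eigenvectors of `K_c`
-/

namespace Pool.Agent.GSN

open Matrix Pool.Agent.GSR

/-- If `K p = s p`, `K q = -s q` with `s² = s2 c`, then the third point of the line through
`v = a p + b q` and `K v` is a multiple of `f21 q p • p - f21 p q • q`. -/
theorem third_of_eig {F : Type} [Field F] (h2 : (2 : F) ≠ 0) (D : Dat F) (c : Fin 2 → F)
    (s : F) (hs : s ^ 2 = D.s2 c) (p q : Fin 6 → F) (hp : ∀ i, D.K c p i = s * p i)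
    (hq : ∀ i, D.K c q i = -s * q i) (a b : F) (i : Fin 6) :
    D.third c (fun i => a * p i + b * q i) i =
      2 * s ^ 3 * a ^ 2 * b ^ 2 * (D.f21 q p * p i - D.f21 p q * q i) := by
  have hK : D.K c (fun i => a * p i + b * q i) =
      fun i => (a * s) * p i + (-(b * s)) * q i := by
    funext j
    have h1 := KK_add D.B (D.Z c) (D.χ c) a b p q j
    rw [Dat.K] at hp hq ⊢
    rw [h1, hp, hq]
    ring
  have e1 := f3_eig h2 D c p s hp
  have e2 := f3_eig h2 D c q (-s) hq
  rw [Dat.third, hK, f3_expand, f3_expand, e1, e2, ← hs]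
  ring

end Pool.Agent.GSN
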