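import Pool.Agent.GSN.CaseB
import Pool.Agent.GSN.Spec
import Pool.Agent.GSN.Third

set_option autoImplicit false

/-!
# GSN: the third point of the generic line is not degenerate
-/

namespace Pool.Agent.GSN

open Matrix Pool.Agent.GSR IntermediateField MvPolynomial

variable {k E : Type} [Field k] [Field E] [Algebra k E]
variable {D : Dat k} {σ : E ≃ₐ[k] E} {c : Fin 2 → E} {s : E} {v : Fin 6 → E}

theorem map_alg {R R' : Type} [CommRing R] [CommRing R'] [Algebra k R] [Algebra k R']
    (φ : R →ₐ[k] R') (D : Dat k) :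
    (D.map (algebraMap k R)).map (φ : R →+* R') = D.map (algebraMap k R') := by
  rw [map_map]
  congr 1
  funext x
  exact φ.commutes x

theorem map_self (D : Dat k) : D.map (algebraMap k k) = D := rfl

/-- `s2` as a polynomial in `c` -/
theorem s2_poly (D : Dat k) {ι : Type} (a : Fin 2 → ι) (R : Type) [CommRing R] [Algebra k R]
    (x : ι → R) :
    aeval x ((D.map (algebraMap k (MvPolynomial ι k))).s2 (fun i => X (a i))) =
      (D.map (algebraMap k R)).s2 (fun i => x (a i)) := by
  have h1 := map_s2 ((aeval x : MvPolynomial ι k →ₐ[k] R) : MvPolynomial ι k →+* R)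
    (D.map (algebraMap k (MvPolynomial ι k))) (fun i => X (a i))
  rw [map_alg] at h1
  have h2 : (fun i => ((aeval x : MvPolynomial ι k →ₐ[k] R) : MvPolynomial ι k →+* R)
      (X (a i))) = fun i => x (a i) := funext fun i => aeval_X x (a i)
  rw [h2] at h1
  exact h1.symm

/-- specialisation, three parameters -/
theorem Conf.st1 (h : Conf D σ c s v) (hc : AlgebraicIndependent k c) {c₀ : Fin 2 → k} {s₀ : k}
    (hs₀ : s₀ ^ 2 = D.s2 c₀) (P : MvPolynomial (Option (Fin 2)) k)
    (hP : aeval (fun o : Option (Fin 2) => o.elim s₀ c₀) P ≠ 0) :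
    aeval (fun o : Option (Fin 2) => o.elim s c) P ≠ 0 := by
  intro h0
  apply hP
  refine spec_of hc (S := (D.map (algebraMap k (MvPolynomial (Fin 2) k))).s2 (fun i => X i)) ?_
    (ns_of hc h.h2 σ h.hc h.hs h.hs0) ?_ h0
  · rw [h.hs2]
    exact (s2_poly D id E c).symm
  · rw [hs₀]
    exact (s2_poly D id k c₀).symm

theorem Conf.nd1 (h : Conf D σ c s v) (hc : AlgebraicIndependent k c) {c₀ : Fin 2 → k} {s₀ : k}
    (hs₀ : s₀ ^ 2 = D.s2 c₀) (hW : WW D c₀ s₀ 0 0 ≠ 0) (hdet : (MM D c₀ s₀).det ≠ 0)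
    (hres : res (MM D c₀ s₀) (NN D c₀ s₀) ≠ 0) :
    WW (D.map (algebraMap k E)) c s 0 0 ≠ 0 ∧ (MM (D.map (algebraMap k E)) c s).det ≠ 0 ∧
      res (MM (D.map (algebraMap k E)) c s) (NN (D.map (algebraMap k E)) c s) ≠ 0 := by
  set R := MvPolynomial (Option (Fin 2)) k with hR
  set D1 := D.map (algebraMap k R) with hD1
  set c1 : Fin 2 → R := fun i => X (some i) with hc1
  set s1 : R := X none with hs1
  have kR : ∀ (R' : Type) [CommRing R'] [Algebra k R'] (a : Fin 2 → R') (b : R'),
      WW (D.map (algebraMap k R')) a b 0 0 =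
          aeval (fun o : Option (Fin 2) => o.elim b a) (WW D1 c1 s1 0 0) ∧
        (MM (D.map (algebraMap k R')) a b).det =
          aeval (fun o : Option (Fin 2) => o.elim b a) (MM D1 c1 s1).det ∧
        res (MM (D.map (algebraMap k R')) a b) (NN (D.map (algebraMap k R')) a b) =
          aeval (fun o : Option (Fin 2) => o.elim b a) (res (MM D1 c1 s1) (NN D1 c1 s1)) := by
    intro R' _ _ a b
    set φ : R →ₐ[k] R' := aeval (fun o : Option (Fin 2) => o.elim b a) with hφ
    have e1 : D1.map (φ : R →+* R') = D.map (algebraMap k R') := map_alg φ D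
    have e2 : (fun i => (φ : R →+* R') (c1 i)) = a := funext fun i => aeval_X _ (some i)
    have e3 : (φ : R →+* R') s1 = b := aeval_X _ none
    refine ⟨?_, ?_, ?_⟩
    · have h1 := map_WW (φ : R →+* R') D1 c1 s1 0 0
      rw [e1, e2, e3] at h1
      exact h1
    · have h1 := map_MM (φ : R →+* R') D1 c1 s1
      rw [e1, e2, e3] at h1
      rw [h1, map_det3]
      rfl
    · have h1 := map_MM (φ : R →+* R') D1 c1 s1
      have h2 := map_NN (φ : R →+* R') D1 c1 s1
      rw [e1, e2, e3] at h1 h2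
      rw [h1, h2, map_res]
      rfl
  obtain ⟨a1, a2, a3⟩ := kR E c s
  obtain ⟨b1, b2, b3⟩ := kR k c₀ s₀
  rw [map_self] at b1 b2 b3
  rw [a1, a2, a3]
  refine ⟨h.st1 hc hs₀ _ ?_, h.st1 hc hs₀ _ ?_, h.st1 hc hs₀ _ ?_⟩
  · rw [← b1]
    exact hW
  · rw [← b2]
    exact hdet
  · rw [← b3]
    exact hres

/-- specialisation, five parameters -/
theorem Conf.nd2 [CharZero k] (h : Conf D σ c s v) (hc : AlgebraicIndependent k c) {m n : E}
    (hx : AlgebraicIndependent k ![c 0, c 1, m, n]) {c₀ : Fin 2 → k} {s₀ m₀ n₀ : k}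
    (hs₀ : s₀ ^ 2 = D.s2 c₀) (hN : D.NDegH (v3 D c₀ s₀ ![1, m₀, n₀])) :
    (D.map (algebraMap k E)).NDegH (v3 (D.map (algebraMap k E)) c s ![1, m, n]) := by
  set R := MvPolynomial (Option (Fin 4)) k with hR
  set D1 := D.map (algebraMap k R) with hD1
  set c1 : Fin 2 → R := ![X (some 0), X (some 1)] with hc1
  set s1 : R := X none with hs1
  set z1 : Fin 3 → R := ![1, X (some 2), X (some 3)] with hz1
  have kR : ∀ (R' : Type) [CommRing R'] [Algebra k R'] (a : Fin 2 → R') (b m' n' : R'),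
      (D1.map ((aeval (fun o : Option (Fin 4) => o.elim b ![a 0, a 1, m', n']) : R →ₐ[k] R') :
          R →+* R') = D.map (algebraMap k R')) ∧
        (fun i => ((aeval (fun o : Option (Fin 4) => o.elim b ![a 0, a 1, m', n']) :
          R →ₐ[k] R') : R →+* R') (v3 D1 c1 s1 z1 i)) =
          v3 (D.map (algebraMap k R')) a b ![1, m', n'] := by
    intro R' _ _ a b m' n'
    set φ : R →ₐ[k] R' := aeval (fun o : Option (Fin 4) => o.elim b ![a 0, a 1, m', n']) with hφ
    have e1 : D1.map (φ : R →+* R') = D.map (algebraMap k R') := map_alg φ D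
    have e2 : (fun i => (φ : R →+* R') (c1 i)) = a := by
      funext i
      fin_cases i
      · exact aeval_X _ (some 0)
      · exact aeval_X _ (some 1)
    have e3 : (φ : R →+* R') s1 = b := aeval_X _ none
    have e4 : (fun i => (φ : R →+* R') (z1 i)) = ![1, m', n'] := by
      funext i
      fin_cases i
      · exact map_one φ
      · exact aeval_X _ (some 2)
      · exact aeval_X _ (some 3)
    refine ⟨e1, ?_⟩
    have h1 := map_v3 (φ : R →+* R') D1 c1 s1 z1
    rw [e1, e2, e3, e4] at h1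
    exact h1.symm
  obtain ⟨a1, a2⟩ := kR E c s m n
  obtain ⟨b1, b2⟩ := kR k c₀ s₀ m₀ n₀
  have hcc : ∀ (R' : Type) (a : Fin 2 → R'), a = ![a 0, a 1] := by
    intro R' a
    funext i
    fin_cases i <;> rfl
  rw [← a2, ← a1]
  refine NDegH_of_spec _ ((aeval (fun o : Option (Fin 4) => o.elim s₀ ![c₀ 0, c₀ 1, m₀, n₀]) :
    R →ₐ[k] k) : R →+* k) (fun P hP h0 => hP ?_) D1 _ ?_
  · set S2 : MvPolynomial (Fin 2) k :=
      (D.map (algebraMap k (MvPolynomial (Fin 2) k))).s2 (fun i => X i) with hS2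
    set a : Fin 2 → Fin 4 := ![0, 1] with ha
    refine spec_of hx (S := (D.map (algebraMap k (MvPolynomial (Fin 4) k))).s2
      (fun i => X (a i))) ?_ (ns_four hx hc σ h.hc h.hs h.hs0 (S := S2) ?_) ?_ h0
    · rw [h.hs2, s2_poly D a E]
      congr 1
      funext i
      fin_cases i <;> rfl
    · rw [h.hs2]
      exact (s2_poly D id E c).symm
    · rw [hs₀, s2_poly D a k]
      congr 1
      funext i
      fin_cases i <;> rfl
  · rw [b1, b2]
    exact hN

/-- The third point of the generic line is not degenerate. -/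
theorem Conf.ndeg [CharZero k] (h : Conf D σ c s v) (hD : Good D)
    (hc : AlgebraicIndependent k c) {y : Fin 4 → E} (hy : AlgebraicIndependent k y) :
    (D.map (algebraMap k E)).NDegH ((D.map (algebraMap k E)).third c v) := by
  obtain ⟨c₀, s₀, m₀, n₀, hs₀, hB, hW, hdet, hres, hN⟩ := hD
  obtain ⟨hW', hdet', hres'⟩ := h.nd1 hc hs₀ hW hdet hres
  obtain ⟨z, hz0, hz, hz', hM, hN'⟩ := h.exists_z hB hW'
  have hPhi := h.Phi_ne hy hz0 hz hdet' hres'
  obtain ⟨t, ht⟩ := crs_prop (z := fun i => σ (z i)) hM hN' hPhi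
  obtain ⟨z00, hind⟩ := h.ind hy hz0 hz ht
  have hnd := h.nd2 hc hind hs₀ hN
  set DE := D.map (algebraMap k E) with hDE
  set u : Fin 3 → E := ![1, z 1 / z 0, z 2 / z 0] with hu
  have hzu : z = fun j => z 0 * u j := by
    funext j
    fin_cases j
    · change z 0 = z 0 * 1
      rw [mul_one]
    · change z 1 = z 0 * (z 1 / z 0)
      field_simp
    · change z 2 = z 0 * (z 2 / z 0)
      field_simp
  have ht0 : t ≠ 0 := by
    intro h0
    have h1 := ht 0
    rw [h0, zero_mul] at h1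
    exact z00 ((map_eq_zero σ).1 h1)
  have hp : ∀ i, p0 D c s v i = z 0 * pp DE c s u i := by
    intro i
    rw [hz]
    conv_lhs => rw [hzu]
    rw [pp_smul]
  have hq : ∀ i, σ (p0 D c s v i) = t * z 0 ^ 2 * qq DE c s u i := by
    intro i
    have h1 : σ (p0 D c s v i) = _ := congrFun hz' i
    rw [h1]
    have h2 : (fun j => σ (z j)) = fun j => (t * z 0 ^ 2) * Phi DE c s u j := by
      funext j
      rw [ht]
      change t * Phi DE c s z j = _
      conv_lhs => rw [hzu]
      rw [Phi_smul]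
      ring
    rw [h2, pp_smul]
    rfl
  have hs0 := h.hs0
  have h2 := h.h2
  have hv : v = fun i => (z 0 / (2 * s)) * pp DE c s u i +
      (-(t * z 0 ^ 2) / (2 * s)) * qq DE c s u i := by
    funext i
    have h3 := h.sig_p0 i
    have h4 : p0 D c s v i = s * v i + DE.K c v i := rfl
    rw [hq] at h3
    rw [hp] at h4
    field_simp
    linear_combination h3 - h4
  have hs2 := h.hs2
  have hKp : ∀ i, DE.K c (pp DE c s u) i = s * pp DE c s u i := by
    intro i
    have h1 : pp DE c s u = fun i => (z 0)⁻¹ * p0 D c s v i + 0 * p0 D c s v i := by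
      funext i
      rw [hp]
      field_simp
      ring
    rw [h1, K_add', h.K_p0]
    ring
  have hKs : ∀ i, DE.K c (fun i => σ (p0 D c s v i)) i = -s * σ (p0 D c s v i) := by
    intro i
    have h1 := congrFun (K_sig σ D h.hc (p0 D c s v)) i
    rw [← hDE] at h1
    rw [h1, h.K_p0, map_mul, h.hs]
  have hKq : ∀ i, DE.K c (qq DE c s u) i = -s * qq DE c s u i := by
    intro i
    have h1 : qq DE c s u = fun i => (t * z 0 ^ 2)⁻¹ * σ (p0 D c s v i) +
        0 * σ (p0 D c s v i) := by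
      funext i
      rw [hq]
      field_simp
      ring
    rw [h1, K_add', hKs]
    ring
  have hthird : DE.third c v = fun i => (2 * s ^ 3 * (z 0 / (2 * s)) ^ 2 *
      (-(t * z 0 ^ 2) / (2 * s)) ^ 2) * v3 DE c s u i := by
    funext i
    conv_lhs => rw [hv]
    rw [third_of_eig h2 DE c s hs2 _ _ hKp hKq]
    rfl
  rw [hthird]
  refine (NDegH_smul DE _ ?_ _).2 hnd
  have e1 : z 0 / (2 * s) ≠ 0 := div_ne_zero z00 (mul_ne_zero h2 hs0)
  have e2 : -(t * z 0 ^ 2) / (2 * s) ≠ 0 :=
    div_ne_zero (neg_ne_zero.2 (mul_ne_zero ht0 (pow_ne_zero _ z00))) (mul_ne_zero h2 hs0)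
  exact mul_ne_zero (mul_ne_zero (mul_ne_zero h2 (pow_ne_zero _ hs0)) (pow_ne_zero _ e1))
    (pow_ne_zero _ e2)

end Pool.Agent.GSN
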