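import Pool.Agent.GSN.Gen

set_option autoImplicit false

/-!
# GSN: eigenvectors of a pencil of bilinear forms are algebraic

`mem_of_cubic`: a root of a cubic polynomial over a relatively algebraically closed subfield `A`.

`pencil`: `M`, `N` two 3x3 matrices over `A`, `z ≠ 0` a vector over `E` such that `M z` and `N z`
are proportional. If `det M ≠ 0` and the two minors of `N - λ M` with rows `0, 1` and `0, 2`
(columns `1, 2`) have no common root `λ` (resultant `res M N ≠ 0`), then `z 0 ≠ 0` and `z / z 0`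
is a vector over `A`.

`alg_small`: a field of transcendence degree at least four is not algebraic over a field generated
by two elements.
-/

namespace Pool.Agent.GSN

open IntermediateField Polynomial

variable {k E : Type} [Field k] [Field E] [Algebra k E]

theorem mem_of_cubic (A : IntermediateField k E) (hA : ∀ e : E, IsAlgebraic A e → e ∈ A)
    {c0 c1 c2 c3 l : E} (h0 : c0 ∈ A) (h1 : c1 ∈ A) (h2 : c2 ∈ A) (h3 : c3 ∈ A) (hne : c3 ≠ 0)
    (h : c0 + c1 * l + c2 * l ^ 2 + c3 * l ^ 3 = 0) : l ∈ A := by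
  apply hA
  refine ⟨C ⟨c0, h0⟩ + C ⟨c1, h1⟩ * X + C ⟨c2, h2⟩ * X ^ 2 + C ⟨c3, h3⟩ * X ^ 3, ?_, ?_⟩
  · intro hp
    have h4 := congrArg (fun p => coeff p 3) hp
    simp only [coeff_add, coeff_C, coeff_C_mul, coeff_X, coeff_X_pow, coeff_zero] at h4
    norm_num at h4
    exact hne (congrArg Subtype.val h4)
  · simp only [map_add, map_mul, map_pow, aeval_C, aeval_X]
    exact h

/-- the resultant of the minors of `N - λ M` with rows `0, 1` and `0, 2` and columns `1, 2` -/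
def res {R : Type} [CommRing R] (M N : Matrix (Fin 3) (Fin 3) R) : R :=
  ((N 0 1 * N 1 2 - N 0 2 * N 1 1) * (M 0 1 * M 2 2 - M 0 2 * M 2 1) -
    (M 0 1 * M 1 2 - M 0 2 * M 1 1) * (N 0 1 * N 2 2 - N 0 2 * N 2 1)) ^ 2 -
  ((N 0 1 * N 1 2 - N 0 2 * N 1 1) *
      (N 0 2 * M 2 1 + M 0 2 * N 2 1 - N 0 1 * M 2 2 - M 0 1 * N 2 2) -
    (N 0 2 * M 1 1 + M 0 2 * N 1 1 - N 0 1 * M 1 2 - M 0 1 * N 1 2) *
      (N 0 1 * N 2 2 - N 0 2 * N 2 1)) *
  ((N 0 2 * M 1 1 + M 0 2 * N 1 1 - N 0 1 * M 1 2 - M 0 1 * N 1 2) *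
      (M 0 1 * M 2 2 - M 0 2 * M 2 1) -
    (M 0 1 * M 1 2 - M 0 2 * M 1 1) *
      (N 0 2 * M 2 1 + M 0 2 * N 2 1 - N 0 1 * M 2 2 - M 0 1 * N 2 2))

/-- a common root of the two minors is a root of the resultant -/
theorem res_zero {R : Type} [CommRing R] [IsDomain R] {M N : Matrix (Fin 3) (Fin 3) R} {l : R}
    (ha : (N 0 1 - l * M 0 1) * (N 1 2 - l * M 1 2) - (N 0 2 - l * M 0 2) * (N 1 1 - l * M 1 1)
      = 0)
    (hb : (N 0 1 - l * M 0 1) * (N 2 2 - l * M 2 2) - (N 0 2 - l * M 0 2) * (N 2 1 - l * M 2 1)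
      = 0) : res M N = 0 := by
  have e1 : ((N 0 1 * N 1 2 - N 0 2 * N 1 1) * (M 0 1 * M 2 2 - M 0 2 * M 2 1) -
    (M 0 1 * M 1 2 - M 0 2 * M 1 1) * (N 0 1 * N 2 2 - N 0 2 * N 2 1)) =
    -((N 0 2 * M 1 1 + M 0 2 * N 1 1 - N 0 1 * M 1 2 - M 0 1 * N 1 2) *
      (M 0 1 * M 2 2 - M 0 2 * M 2 1) -
    (M 0 1 * M 1 2 - M 0 2 * M 1 1) *
      (N 0 2 * M 2 1 + M 0 2 * N 2 1 - N 0 1 * M 2 2 - M 0 1 * N 2 2)) * l := by
    linear_combination (M 0 1 * M 2 2 - M 0 2 * M 2 1) * ha -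
      (M 0 1 * M 1 2 - M 0 2 * M 1 1) * hb
  have e2 : ((N 0 1 * N 1 2 - N 0 2 * N 1 1) *
      (N 0 2 * M 2 1 + M 0 2 * N 2 1 - N 0 1 * M 2 2 - M 0 1 * N 2 2) -
    (N 0 2 * M 1 1 + M 0 2 * N 1 1 - N 0 1 * M 1 2 - M 0 1 * N 1 2) *
      (N 0 1 * N 2 2 - N 0 2 * N 2 1)) =
    ((N 0 2 * M 1 1 + M 0 2 * N 1 1 - N 0 1 * M 1 2 - M 0 1 * N 1 2) *
      (M 0 1 * M 2 2 - M 0 2 * M 2 1) -
    (M 0 1 * M 1 2 - M 0 2 * M 1 1) *
      (N 0 2 * M 2 1 + M 0 2 * N 2 1 - N 0 1 * M 2 2 - M 0 1 * N 2 2)) * l ^ 2 := by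
    linear_combination (N 0 2 * M 2 1 + M 0 2 * N 2 1 - N 0 1 * M 2 2 - M 0 1 * N 2 2) * ha -
      (N 0 2 * M 1 1 + M 0 2 * N 1 1 - N 0 1 * M 1 2 - M 0 1 * N 1 2) * hb
  unfold res
  rw [e1, e2]
  ring

theorem pencil (A : IntermediateField k E) (hA : ∀ e : E, IsAlgebraic A e → e ∈ A)
    {M N : Matrix (Fin 3) (Fin 3) E} (hM : ∀ i j, M i j ∈ A) (hN : ∀ i j, N i j ∈ A)
    {z : Fin 3 → E} (hz : z ≠ 0)
    (hdep : ∀ i j, M.mulVec z i * N.mulVec z j = M.mulVec z j * N.mulVec z i)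
    (hdet : M.det ≠ 0) (hres : res M N ≠ 0) :
    z 0 ≠ 0 ∧ z 1 / z 0 ∈ A ∧ z 2 / z 0 ∈ A := by
  have hMz : M.mulVec z ≠ 0 := by
    intro h
    exact hz (Matrix.eq_zero_of_mulVec_eq_zero hdet h)
  obtain ⟨i, hi⟩ := Function.ne_iff.1 hMz
  have hi' : M.mulVec z i ≠ 0 := hi
  set l := N.mulVec z i / M.mulVec z i with hl
  have hNz : ∀ j, N.mulVec z j - l * M.mulVec z j = 0 := by
    intro j
    rw [hl, sub_eq_zero, eq_comm, div_mul_eq_mul_div, div_eq_iff hi', mul_comm (N.mulVec z j),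
      mul_comm (N.mulVec z i)]
    exact (hdep i j).symm
  have hrow : ∀ j, (N j 0 - l * M j 0) * z 0 + (N j 1 - l * M j 1) * z 1 +
      (N j 2 - l * M j 2) * z 2 = 0 := by
    intro j
    have h1 := hNz j
    simp only [Matrix.mulVec, dotProduct, Fin.sum_univ_three] at h1
    linear_combination h1
  have hdet0 : (N - l • M).det = 0 := by
    by_contra hne
    apply hz
    refine Matrix.eq_zero_of_mulVec_eq_zero hne ?_
    funext j
    rw [Matrix.sub_mulVec, Matrix.smul_mulVec, Pi.sub_apply, Pi.smul_apply, smul_eq_mul]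
    exact hNz j
  have hlA : l ∈ A := by
    refine mem_of_cubic A hA (c3 := -M.det)
      (c0 := N 0 0 * N 1 1 * N 2 2 - N 0 0 * N 1 2 * N 2 1 - N 0 1 * N 1 0 * N 2 2 +
        N 0 1 * N 1 2 * N 2 0 + N 0 2 * N 1 0 * N 2 1 - N 0 2 * N 1 1 * N 2 0)
      (c1 := -(M 0 0 * N 1 1 * N 2 2 + N 0 0 * M 1 1 * N 2 2 + N 0 0 * N 1 1 * M 2 2) +
        (M 0 0 * N 1 2 * N 2 1 + N 0 0 * M 1 2 * N 2 1 + N 0 0 * N 1 2 * M 2 1) +
        (M 0 1 * N 1 0 * N 2 2 + N 0 1 * M 1 0 * N 2 2 + N 0 1 * N 1 0 * M 2 2) -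
        (M 0 1 * N 1 2 * N 2 0 + N 0 1 * M 1 2 * N 2 0 + N 0 1 * N 1 2 * M 2 0) -
        (M 0 2 * N 1 0 * N 2 1 + N 0 2 * M 1 0 * N 2 1 + N 0 2 * N 1 0 * M 2 1) +
        (M 0 2 * N 1 1 * N 2 0 + N 0 2 * M 1 1 * N 2 0 + N 0 2 * N 1 1 * M 2 0))
      (c2 := (M 0 0 * M 1 1 * N 2 2 + N 0 0 * M 1 1 * M 2 2 + M 0 0 * N 1 1 * M 2 2) -
        (M 0 0 * M 1 2 * N 2 1 + N 0 0 * M 1 2 * M 2 1 + M 0 0 * N 1 2 * M 2 1) -
        (M 0 1 * M 1 0 * N 2 2 + N 0 1 * M 1 0 * M 2 2 + M 0 1 * N 1 0 * M 2 2) +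
        (M 0 1 * M 1 2 * N 2 0 + N 0 1 * M 1 2 * M 2 0 + M 0 1 * N 1 2 * M 2 0) +
        (M 0 2 * M 1 0 * N 2 1 + N 0 2 * M 1 0 * M 2 1 + M 0 2 * N 1 0 * M 2 1) -
        (M 0 2 * M 1 1 * N 2 0 + N 0 2 * M 1 1 * M 2 0 + M 0 2 * N 1 1 * M 2 0))
      ?_ ?_ ?_ ?_ (neg_ne_zero.2 hdet) ?_
    · repeat first
        | exact hM _ _
        | exact hN _ _
        | apply add_mem
        | apply sub_mem
        | apply neg_mem
        | apply mul_mem
    · repeat first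
        | exact hM _ _
        | exact hN _ _
        | apply add_mem
        | apply sub_mem
        | apply neg_mem
        | apply mul_mem
    · repeat first
        | exact hM _ _
        | exact hN _ _
        | apply add_mem
        | apply sub_mem
        | apply neg_mem
        | apply mul_mem
    · rw [Matrix.det_fin_three]
      repeat first
        | exact hM _ _
        | exact hN _ _
        | apply add_mem
        | apply sub_mem
        | apply neg_mem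
        | apply mul_mem
    · rw [← hdet0, Matrix.det_fin_three, Matrix.det_fin_three]
      simp only [Matrix.sub_apply, Matrix.smul_apply, smul_eq_mul]
      ring
  have hr : ∀ i j, N i j - l * M i j ∈ A := fun i j => sub_mem (hN i j) (mul_mem hlA (hM i j))
  have key : ∀ i j : Fin 3, (N i 1 - l * M i 1) * (N j 2 - l * M j 2) -
      (N i 2 - l * M i 2) * (N j 1 - l * M j 1) ≠ 0 →
      z 0 ≠ 0 ∧ z 1 / z 0 ∈ A ∧ z 2 / z 0 ∈ A := by
    intro i j hne
    have e1 : z 1 * ((N i 1 - l * M i 1) * (N j 2 - l * M j 2) -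
      (N i 2 - l * M i 2) * (N j 1 - l * M j 1)) = z 0 * ((N i 2 - l * M i 2) *
        (N j 0 - l * M j 0) - (N i 0 - l * M i 0) * (N j 2 - l * M j 2)) := by
      linear_combination (N j 2 - l * M j 2) * hrow i - (N i 2 - l * M i 2) * hrow j
    have e2 : z 2 * ((N i 1 - l * M i 1) * (N j 2 - l * M j 2) -
      (N i 2 - l * M i 2) * (N j 1 - l * M j 1)) = z 0 * ((N i 0 - l * M i 0) *
        (N j 1 - l * M j 1) - (N i 1 - l * M i 1) * (N j 0 - l * M j 0)) := by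
      linear_combination (N i 1 - l * M i 1) * hrow j - (N j 1 - l * M j 1) * hrow i
    have hz0 : z 0 ≠ 0 := by
      intro h0
      rw [h0, zero_mul] at e1 e2
      apply hz
      funext j
      fin_cases j
      · exact h0
      · exact (mul_eq_zero.1 e1).resolve_right hne
      · exact (mul_eq_zero.1 e2).resolve_right hne
    refine ⟨hz0, ?_, ?_⟩
    · have e3 : z 1 / z 0 = ((N i 2 - l * M i 2) * (N j 0 - l * M j 0) -
          (N i 0 - l * M i 0) * (N j 2 - l * M j 2)) / ((N i 1 - l * M i 1) *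
          (N j 2 - l * M j 2) - (N i 2 - l * M i 2) * (N j 1 - l * M j 1)) := by
        rw [div_eq_div_iff hz0 hne, e1, mul_comm]
      rw [e3]
      exact div_mem (sub_mem (mul_mem (hr _ _) (hr _ _)) (mul_mem (hr _ _) (hr _ _)))
        (sub_mem (mul_mem (hr _ _) (hr _ _)) (mul_mem (hr _ _) (hr _ _)))
    · have e3 : z 2 / z 0 = ((N i 0 - l * M i 0) * (N j 1 - l * M j 1) -
          (N i 1 - l * M i 1) * (N j 0 - l * M j 0)) / ((N i 1 - l * M i 1) *
          (N j 2 - l * M j 2) - (N i 2 - l * M i 2) * (N j 1 - l * M j 1)) := by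
        rw [div_eq_div_iff hz0 hne, e2, mul_comm]
      rw [e3]
      exact div_mem (sub_mem (mul_mem (hr _ _) (hr _ _)) (mul_mem (hr _ _) (hr _ _)))
        (sub_mem (mul_mem (hr _ _) (hr _ _)) (mul_mem (hr _ _) (hr _ _)))
  by_cases ha : (N 0 1 - l * M 0 1) * (N 1 2 - l * M 1 2) -
      (N 0 2 - l * M 0 2) * (N 1 1 - l * M 1 1) = 0
  · by_cases hb : (N 0 1 - l * M 0 1) * (N 2 2 - l * M 2 2) -
      (N 0 2 - l * M 0 2) * (N 2 1 - l * M 2 1) = 0
    · exact absurd (res_zero ha hb) hres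
    · exact key 0 2 hb
  · exact key 0 1 ha

/-- the algebraic closure of `k(a, b)` in `E` -/
noncomputable def clo (k : Type) {E : Type} [Field k] [Field E] [Algebra k E] (a b : E) :
    IntermediateField k E :=
  (algebraicClosure (adjoin k ({a, b} : Set E)) E).restrictScalars k

theorem mem_clo {a b e : E} : e ∈ clo k a b ↔ IsAlgebraic (adjoin k ({a, b} : Set E)) e := by
  unfold clo
  rw [IntermediateField.mem_restrictScalars, mem_algebraicClosure_iff]

theorem clo_closed (a b : E) : ∀ e : E, IsAlgebraic (clo k a b) e → e ∈ clo k a b := by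
  intro e he
  have h1 : IsAlgebraic (algebraicClosure (adjoin k ({a, b} : Set E)) E) e := he
  rw [mem_clo]
  exact h1.restrictScalars (adjoin k ({a, b} : Set E))

theorem left_mem_clo (a b : E) : a ∈ clo k a b := by
  rw [mem_clo]
  exact isAlgebraic_algebraMap (⟨a, subset_adjoin k _ (by simp)⟩ : adjoin k ({a, b} : Set E))

theorem right_mem_clo (a b : E) : b ∈ clo k a b := by
  rw [mem_clo]
  exact isAlgebraic_algebraMap (⟨b, subset_adjoin k _ (by simp)⟩ : adjoin k ({a, b} : Set E))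

/-- a field of transcendence degree four is not algebraic over `k(a, b)`. -/
theorem alg_small {y : Fin 4 → E} (hy : AlgebraicIndependent k y) {a b : E}
    (h : ∀ e : E, e ∈ clo k a b) : False := by
  have h1 : Set.range ![a, b, a, b] = ({a, b} : Set E) := by
    ext t
    simp only [Set.mem_range, Set.mem_insert_iff, Set.mem_singleton_iff]
    constructor
    · rintro ⟨i, rfl⟩
      fin_cases i <;> simp
    · rintro (h | h)
      · exact ⟨0, by rw [h]; rfl⟩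
      · exact ⟨1, by rw [h]; rfl⟩
  have h2 : AlgebraicIndependent k ![a, b, a, b] := by
    refine ind_of_alg hy ?_
    rw [h1]
    exact ⟨fun e => mem_clo.1 (h e)⟩
  have h3 := h2.injective (a₁ := 0) (a₂ := 2) rfl
  exact absurd h3 (by decide)

end Pool.Agent.GSN
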