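import Pool.Agent.GSN.Vecs
import Pool.Agent.GSN.Pencil
import Pool.Agent.GSR.NDegH

set_option autoImplicit false

/-!
# GSN: the condition `Good` on a datum, and extension of scalars

`Good D`: there is one point `(c₀, c₁, s, m, n)` with `s ^ 2 = D.s2 c` at which `det B`, `W₀₀`,
`det M`, `res (M, N)` are not zero and the third point `v3` is not degenerate.
-/

namespace Pool.Agent.GSN

open Matrix Pool.Agent.GSR

section Ring

variable {F F' : Type} [CommRing F] [CommRing F']

/-- the second point -/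
def qq (D : Dat F) (c : Fin 2 → F) (s : F) (z : Fin 3 → F) : Fin 6 → F :=
  pp D c (-s) (Phi D c s z)

/-- the third point of the line through `pp` and `qq`, up to a scalar -/
def v3 (D : Dat F) (c : Fin 2 → F) (s : F) (z : Fin 3 → F) : Fin 6 → F :=
  fun i => D.f21 (qq D c s z) (pp D c s z) * pp D c s z i -
    D.f21 (pp D c s z) (qq D c s z) * qq D c s z i

/-- The condition on the datum: one non-degenerate point. -/
def Good (D : Dat F) : Prop :=
  ∃ (c : Fin 2 → F) (s m n : F), s ^ 2 = D.s2 c ∧ D.B.det ≠ 0 ∧ WW D c s 0 0 ≠ 0 ∧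
    (MM D c s).det ≠ 0 ∧ res (MM D c s) (NN D c s) ≠ 0 ∧ D.NDegH (v3 D c s ![1, m, n])

variable (f : F →+* F')

theorem map_WW (D : Dat F) (c : Fin 2 → F) (s : F) (i j : Fin 2) :
    WW (D.map f) (fun i => f (c i)) (f s) i j = f (WW D c s i j) := by
  have h2 : f 2 = 2 := map_ofNat f 2
  have h3 : (D.map f).B = D.B.map f := rfl
  simp only [WW, h3, D.map_Z f c, map_mix, map_det', Matrix.sub_apply, Matrix.smul_apply,
    smul_eq_mul, Matrix.map_apply, map_sub, map_mul, h2]

theorem map_hh (D : Dat F) (c : Fin 2 → F) (s : F) (i : Fin 3) :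
    hh (D.map f) (fun i => f (c i)) (f s) i = fun j => f (hh D c s i j) := by
  have h2 : f 2 = 2 := map_ofNat f 2
  have h3 : (D.map f).B = D.B.map f := rfl
  funext j
  have h4 : ∀ a b : F, ln (D.B.map f).adjugate (fun i => f (D.χ c i)) ![f a, f b, 0, 0, 0, 0] =
      f (ln D.B.adjugate (D.χ c) ![a, b, 0, 0, 0, 0]) := by
    intro a b
    rw [map_adj, ← map_ln]
    congr 1
    funext i
    fin_cases i <;> simp
  have h5 : ∀ a b : F, ln (D.B.map f).adjugate (fun i => f (D.χ c i)) ![0, 0, f a, f b, 0, 0] =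
      f (ln D.B.adjugate (D.χ c) ![0, 0, a, b, 0, 0]) := by
    intro a b
    rw [map_adj, ← map_ln]
    congr 1
    funext i
    fin_cases i <;> simp
  simp only [hh, map_WW, D.map_χ f c, h3, h4, h5, D.map_Z f c, map_mix, map_det']
  fin_cases i <;> fin_cases j <;>
  simp [h2]

theorem map_pp (D : Dat F) (c : Fin 2 → F) (s : F) (z : Fin 3 → F) :
    pp (D.map f) (fun i => f (c i)) (f s) (fun i => f (z i)) = fun j => f (pp D c s z j) := by
  funext j
  simp only [pp, map_hh, map_add, map_mul]

theorem map_MM (D : Dat F) (c : Fin 2 → F) (s : F) :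
    MM (D.map f) (fun i => f (c i)) (f s) = (MM D c s).map f := by
  ext i j
  simp only [MM, Matrix.map_apply]
  rw [← map_neg, map_hh, map_hh, map_w]

theorem map_NN (D : Dat F) (c : Fin 2 → F) (s : F) :
    NN (D.map f) (fun i => f (c i)) (f s) = (NN D c s).map f := by
  ext i j
  simp only [NN, Matrix.map_apply]
  rw [← map_neg, map_hh, map_hh, D.map_tau f]

theorem map_crs (a b : Fin 3 → F) :
    crs (fun i => f (a i)) (fun i => f (b i)) = fun i => f (crs a b i) := by
  funext i
  fin_cases i <;> simp [crs]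

theorem map_mv (M : Matrix (Fin 3) (Fin 3) F) (z : Fin 3 → F) :
    M.map f *ᵥ (fun i => f (z i)) = fun i => f ((M *ᵥ z) i) := by
  funext i
  simp [mulVec, dotProduct]

theorem map_Phi (D : Dat F) (c : Fin 2 → F) (s : F) (z : Fin 3 → F) :
    Phi (D.map f) (fun i => f (c i)) (f s) (fun i => f (z i)) = fun j => f (Phi D c s z j) := by
  rw [Phi, map_MM, map_NN, map_mv, map_mv, map_crs, Phi]

theorem map_qq (D : Dat F) (c : Fin 2 → F) (s : F) (z : Fin 3 → F) :
    qq (D.map f) (fun i => f (c i)) (f s) (fun i => f (z i)) = fun j => f (qq D c s z j) := by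
  rw [qq, map_Phi, ← map_neg, map_pp, qq]

theorem map_f21 (D : Dat F) (a b : Fin 6 → F) :
    (D.map f).f21 (fun i => f (a i)) (fun i => f (b i)) = f (D.f21 a b) := by
  rw [Dat.f21, Dat.f21]
  simp only [Dat.map, map_adj, map_det', ← GSR.map_mul', ← GSR.map_sub', map_bl, map_ln]
  simp

theorem map_v3 (D : Dat F) (c : Fin 2 → F) (s : F) (z : Fin 3 → F) :
    v3 (D.map f) (fun i => f (c i)) (f s) (fun i => f (z i)) = fun j => f (v3 D c s z j) := by
  funext j
  simp only [v3, map_qq, map_pp, map_f21, map_sub, map_mul]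

theorem map_res (M N : Matrix (Fin 3) (Fin 3) F) : res (M.map f) (N.map f) = f (res M N) := by
  simp [res]

theorem map_det3 (M : Matrix (Fin 3) (Fin 3) F) : (M.map f).det = f M.det := by
  simp [Matrix.det_fin_three]

theorem map_s2 (D : Dat F) (c : Fin 2 → F) :
    (D.map f).s2 (fun i => f (c i)) = f (D.s2 c) := by
  rw [Dat.s2, D.map_Z f c]
  exact map_disc f _ _

end Ring

end Pool.Agent.GSN
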