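import Mathlib

set_option autoImplicit false

/-!
# GSN: specialisation at one point

`τ` a family of elements of a field `E` over `k`, algebraically independent over `k`, `t` a point
with coordinates in `k`. `Sp τ t e c`: the element `e` of `E` is a rational function of `τ`,
defined at `t`, with value `c`. The relation is compatible with the field operations, and an
element with nonzero value is not zero.
-/

namespace Pool.Agent.GSN

open MvPolynomial

variable {k E ι : Type} [Field k] [Field E] [Algebra k E]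

/-- `e = P(τ) / Q(τ)` with `Q(t) ≠ 0` and `c = P(t) / Q(t)` -/
def Sp (τ : ι → E) (t : ι → k) (e : E) (c : k) : Prop :=
  ∃ P Q : MvPolynomial ι k, eval t Q ≠ 0 ∧ e * aeval τ Q = aeval τ P ∧ c * eval t Q = eval t P

variable {τ : ι → E} {t : ι → k}

theorem Sp.const (c : k) : Sp τ t (algebraMap k E c) c :=
  ⟨C c, 1, by simp, by simp, by simp⟩

theorem Sp.zero : Sp τ t 0 0 := ⟨0, 1, by simp, by simp, by simp⟩

theorem Sp.one : Sp τ t 1 1 := ⟨1, 1, by simp, by simp, by simp⟩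

theorem Sp.nat (n : ℕ) [n.AtLeastTwo] : Sp τ t (OfNat.ofNat n) (OfNat.ofNat n) :=
  ⟨OfNat.ofNat n, 1, by simp, by simp, by simp⟩

theorem Sp.var (i : ι) : Sp τ t (τ i) (t i) :=
  ⟨X i, 1, by simp, by simp, by simp⟩

variable {e e' : E} {c c' : k}

theorem Sp.add (h : Sp τ t e c) (h' : Sp τ t e' c') : Sp τ t (e + e') (c + c') := by
  obtain ⟨P, Q, h1, h2, h3⟩ := h
  obtain ⟨P', Q', h1', h2', h3'⟩ := h'
  refine ⟨P * Q' + P' * Q, Q * Q', ?_, ?_, ?_⟩
  · rw [map_mul]
    exact mul_ne_zero h1 h1'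
  · rw [map_mul, map_add, map_mul, map_mul, ← h2, ← h2']
    ring
  · rw [map_mul, map_add, map_mul, map_mul, ← h3, ← h3']
    ring

theorem Sp.neg (h : Sp τ t e c) : Sp τ t (-e) (-c) := by
  obtain ⟨P, Q, h1, h2, h3⟩ := h
  refine ⟨-P, Q, h1, ?_, ?_⟩
  · rw [map_neg, ← h2]
    ring
  · rw [map_neg, ← h3]
    ring

theorem Sp.sub (h : Sp τ t e c) (h' : Sp τ t e' c') : Sp τ t (e - e') (c - c') := by
  rw [sub_eq_add_neg, sub_eq_add_neg]
  exact h.add h'.neg

theorem Sp.mul (h : Sp τ t e c) (h' : Sp τ t e' c') : Sp τ t (e * e') (c * c') := by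
  obtain ⟨P, Q, h1, h2, h3⟩ := h
  obtain ⟨P', Q', h1', h2', h3'⟩ := h'
  refine ⟨P * P', Q * Q', ?_, ?_, ?_⟩
  · rw [map_mul]
    exact mul_ne_zero h1 h1'
  · rw [map_mul, map_mul, ← h2, ← h2']
    ring
  · rw [map_mul, map_mul, ← h3, ← h3']
    ring

theorem Sp.pow (h : Sp τ t e c) (n : ℕ) : Sp τ t (e ^ n) (c ^ n) := by
  induction n with
  | zero => rw [pow_zero, pow_zero]; exact Sp.one
  | succ n ih => rw [pow_succ, pow_succ]; exact ih.mul h

theorem Sp.sum {ι' : Type} (s : Finset ι') {f : ι' → E} {g : ι' → k}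
    (h : ∀ i ∈ s, Sp τ t (f i) (g i)) : Sp τ t (∑ i ∈ s, f i) (∑ i ∈ s, g i) := by
  classical
  induction s using Finset.induction_on with
  | empty => rw [Finset.sum_empty, Finset.sum_empty]; exact Sp.zero
  | insert a s ha ih =>
    rw [Finset.sum_insert ha, Finset.sum_insert ha]
    exact (h a (Finset.mem_insert_self a s)).add (ih fun i hi => h i (Finset.mem_insert_of_mem hi))

/-- an element with nonzero value is not zero -/
theorem Sp.ne (hτ : AlgebraicIndependent k τ) (h : Sp τ t e c) (hc : c ≠ 0) : e ≠ 0 := by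
  obtain ⟨P, Q, h1, h2, h3⟩ := h
  rintro rfl
  rw [zero_mul] at h2
  have h4 : P = 0 := hτ (by rw [← h2, map_zero])
  rw [h4, map_zero] at h3
  exact (mul_ne_zero hc h1) h3

/-- the value is unique -/
theorem Sp.eq (hτ : AlgebraicIndependent k τ) (h : Sp τ t e c) (h' : Sp τ t e c') : c = c' := by
  by_contra hne
  have h1 := h.sub h'
  rw [sub_self] at h1
  exact h1.ne hτ (sub_ne_zero.2 hne) rfl

theorem Sp.inv (hτ : AlgebraicIndependent k τ) (h : Sp τ t e c) (hc : c ≠ 0) :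
    Sp τ t e⁻¹ c⁻¹ := by
  have he := h.ne hτ hc
  obtain ⟨P, Q, h1, h2, h3⟩ := h
  refine ⟨Q, P, ?_, ?_, ?_⟩
  · rw [← h3]
    exact mul_ne_zero hc h1
  · rw [← h2, inv_mul_cancel_left₀ he]
  · rw [← h3, inv_mul_cancel_left₀ hc]

theorem Sp.div (hτ : AlgebraicIndependent k τ) (h : Sp τ t e c) (h' : Sp τ t e' c')
    (hc : c' ≠ 0) : Sp τ t (e / e') (c / c') := by
  rw [div_eq_mul_inv, div_eq_mul_inv]
  exact h.mul (h'.inv hτ hc)

end Pool.Agent.GSN
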