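import Pool.Agent.GSN.Maps

set_option autoImplicit false

/-!
# GSN: descent along the involution

`E` a field over `k` with an involution `σ`, `c` fixed by `σ`, `σ s = -s`, `v` a vector fixed by
`σ`. `p₀ = s v + K_c v` is an eigenvector, `v = (p₀ - σ p₀) / (2 s)`.

`top_of`: an intermediate field `A` with `σ A = A` which contains `c`, `s` and the coordinates of a
multiple of `p₀` is all of `E`.
-/

namespace Pool.Agent.GSN

open Matrix Pool.Agent.GSR IntermediateField

variable {k E : Type} [Field k] [Field E] [Algebra k E]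

theorem mem_fix (σ : E ≃ₐ[k] E) (t : E) :
    t ∈ IntermediateField.fixedField (Subgroup.closure {σ}) ↔ σ t = t := by
  rw [IntermediateField.mem_fixedField_iff]
  constructor
  · intro h
    exact h σ (Subgroup.subset_closure (Set.mem_singleton _))
  · intro h g hg
    induction hg using Subgroup.closure_induction with
    | mem x hx => rw [Set.mem_singleton_iff.1 hx]; exact h
    | one => rfl
    | mul x y _ _ hx hy => rw [AlgEquiv.mul_apply, hy, hx]
    | inv x _ hx =>
      have : x⁻¹ (x t) = t := by rw [← AlgEquiv.mul_apply, inv_mul_cancel]; rfl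
      rwa [hx] at this

theorem map_map {R R' R'' : Type} (f : R → R') (g : R' → R'') (D : Dat R) :
    (D.map f).map g = D.map (fun x => g (f x)) := rfl

/-- `D` over `E` is fixed by `σ` -/
theorem map_sig (σ : E ≃ₐ[k] E) (D : Dat k) :
    (D.map (algebraMap k E)).map (σ : E →+* E) = D.map (algebraMap k E) := by
  rw [map_map]
  congr 1
  funext x
  exact σ.commutes x

theorem K_sig (σ : E ≃ₐ[k] E) (D : Dat k) {c : Fin 2 → E} (hc : ∀ i, σ (c i) = c i)
    (v : Fin 6 → E) : (D.map (algebraMap k E)).K c (fun i => σ (v i)) =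
      fun i => σ ((D.map (algebraMap k E)).K c v i) := by
  have h1 := (D.map (algebraMap k E)).map_K (σ : E →+* E) c v
  rw [map_sig] at h1
  have h2 : (fun i => (σ : E →+* E) (c i)) = c := funext hc
  rw [h2] at h1
  exact h1

theorem K_add' (D : Dat E) (c : Fin 2 → E) (a b : E) (v z : Fin 6 → E) (i : Fin 6) :
    D.K c (fun i => a * v i + b * z i) i = a * D.K c v i + b * D.K c z i := by
  rw [Dat.K]
  exact KK_add _ _ _ a b v z i

theorem top_of (h2 : (2 : E) ≠ 0) (D : Dat k) (σ : E ≃ₐ[k] E) (hσ : ∀ e, σ (σ e) = e)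
    {c : Fin 2 → E} (hc : ∀ i, σ (c i) = c i) {s : E} (hs : σ s = -s) (hs0 : s ≠ 0)
    {v : Fin 6 → E} (hv : ∀ i, σ (v i) = v i)
    (gen : ∀ T : IntermediateField k E, (∀ t ∈ T, σ t = t) → (∀ i, c i ∈ T) →
      ∀ (v' : Fin 6 → E) (α β : E), (∀ i, v' i ∈ T) → σ α = α → σ β = β →
      (∀ i, v i = α * v' i + β * (D.map (algebraMap k E)).K c v' i) → ∀ e, σ e = e → e ∈ T)
    (A : IntermediateField k E) (hA : ∀ e ∈ A, σ e ∈ A) (hcA : ∀ i, c i ∈ A) (hsA : s ∈ A)
    {p : Fin 6 → E} (hpA : ∀ i, p i ∈ A)
    (hp : ∀ i, (D.map (algebraMap k E)).K c p i = s * p i) {z : E}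
    (hz : ∀ i, z * p i = s * v i + (D.map (algebraMap k E)).K c v i) : A = ⊤ := by
  set DE := D.map (algebraMap k E) with hDE
  set T : IntermediateField k E := A ⊓ IntermediateField.fixedField (Subgroup.closure {σ})
    with hT
  have memT : ∀ t : E, t ∈ A → σ t = t → t ∈ T := fun t h h' =>
    IntermediateField.mem_inf.2 ⟨h, (mem_fix σ t).2 h'⟩
  have h22 : σ 2 = 2 := map_ofNat σ 2
  have h24 : σ 4 = 4 := map_ofNat σ 4
  have h4 : (4 : E) ≠ 0 := by
    have : (2 : E) * 2 ≠ 0 := mul_ne_zero h2 h2
    intro h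
    apply this
    linear_combination h
  have key : ∀ e, σ e = e → e ∈ T := by
    have hKs : ∀ i, DE.K c (fun i => σ (p i)) i = -(s * σ (p i)) := by
      intro i
      rw [hDE, K_sig σ D hc p]
      simp only
      rw [← hDE, hp, map_mul, hs, neg_mul]
    have hKu : ∀ i, DE.K c (fun i => p i + σ (p i)) i = s * p i - s * σ (p i) := by
      intro i
      have h1 := K_add' DE c 1 1 p (fun i => σ (p i)) i
      simp only [one_mul] at h1
      rw [h1, hp, hKs]
      ring
    have hv2 : ∀ i, 2 * s * v i = z * p i - σ z * σ (p i) := by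
      intro i
      have h1 := hz i
      have h2 := congrArg σ h1
      rw [map_mul, map_add, map_mul, hs, hv] at h2
      have h3 : σ (DE.K c v i) = DE.K c v i := by
        have h4 := congrFun (K_sig σ D hc v) i
        simp only [hv] at h4
        exact h4.symm
      rw [h3] at h2
      linear_combination h2 - h1
    refine gen T (fun t ht => (mem_fix σ t).1 (IntermediateField.mem_inf.1 ht).2)
      (fun i => memT _ (hcA i) (hc i)) (fun i => p i + σ (p i))
      ((z - σ z) / (4 * s)) ((z + σ z) / (4 * s ^ 2)) (fun i => ?_) ?_ ?_ (fun i => ?_)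
    · refine memT _ (add_mem (hpA i) (hA _ (hpA i))) ?_
      rw [map_add, hσ, add_comm]
    · rw [map_div₀, map_sub, map_mul, hσ, hs, h24]
      field_simp
      ring
    · rw [map_div₀, map_add, map_mul, map_pow, hσ, hs, h24]
      field_simp
      ring
    · rw [hKu]
      have h1 := hv2 i
      field_simp
      linear_combination 2 * h1
  refine top_le_iff.1 fun e _ => ?_
  have e1 : e = (e + σ e) / 2 + s * ((e - σ e) / (2 * s)) := by
    field_simp
    ring
  rw [e1]
  refine add_mem ?_ (mul_mem hsA ?_)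
  · refine (IntermediateField.mem_inf.1 (key _ ?_)).1
    rw [map_div₀, map_add, hσ, h22, add_comm]
  · refine (IntermediateField.mem_inf.1 (key _ ?_)).1
    rw [map_div₀, map_sub, hσ, map_mul, h22, hs]
    field_simp
    ring

end Pool.Agent.GSN
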