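import Pool.Agent.GSR.Map

set_option autoImplicit false

/-!
# GSN: the eigenvectors of the operator `K_c` in closed form

`s ^ 2 = D.s2 c` (`disc`), `W = (mix B Z - s) B - 2 det B Z`. `hh D c s i` (`i = 0, 1, 2`) are
eigenvectors of `K_c` with eigenvalue `s`. `MM`, `NN` are the matrices of the forms `w`, `τ_c`
between the eigenspaces for `s` and `-s`, `Phi` the cross product, `qq` the point of the second
eigenspace orthogonal to `pp` for both forms, `v3` the third point of the line `pp, qq`.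
-/

namespace Pool.Agent.GSN

open Matrix Pool.Agent.GSR

section Ring

variable {F : Type} [CommRing F]

/-- the matrix `W` -/
def WW (D : Dat F) (c : Fin 2 → F) (s : F) : Matrix (Fin 2) (Fin 2) F :=
  (mix D.B (D.Z c) - s) • D.B - (2 * D.B.det) • D.Z c

/-- the eigenvectors -/
def hh (D : Dat F) (c : Fin 2 → F) (s : F) : Fin 3 → Fin 6 → F :=
  ![![0, 0, 0, 0, -(mix D.B (D.Z c) + s), 2 * D.B.det],
    ![D.B.det * WW D c s 0 0, D.B.det * WW D c s 0 1, 0, 0,
      ln D.B.adjugate (D.χ c) ![WW D c s 0 0, WW D c s 0 1, 0, 0, 0, 0], 0],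
    ![0, 0, D.B.det * WW D c s 0 0, D.B.det * WW D c s 1 0,
      ln D.B.adjugate (D.χ c) ![0, 0, WW D c s 0 0, WW D c s 1 0, 0, 0], 0]]

theorem K_hh (D : Dat F) (c : Fin 2 → F) (s : F) (hs : s ^ 2 = disc D.B (D.Z c)) (i : Fin 3)
    (j : Fin 6) : D.K c (hh D c s i) j = s * hh D c s i j := by
  unfold disc at hs
  generalize hZ : D.Z c = Z at *
  generalize hχ : D.χ c = χ at *
  obtain ⟨B, N, E, γ, δ, t⟩ := D
  fin_cases i <;> fin_cases j <;>
  simp only [Dat.K, KK, hh, WW, hZ, hχ, ln, mix, Matrix.det_fin_two, Matrix.adjugate_fin_two,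
    Matrix.mul_apply, Fin.sum_univ_two, Matrix.sub_apply, Matrix.smul_apply, smul_eq_mul,
    Matrix.of_apply, Matrix.cons_val, Fin.reduceFinMk, Fin.isValue, Fin.zero_eta, Fin.mk_one]
    at hs ⊢
  · ring
  · ring
  · ring
  · ring
  · linear_combination hs
  · ring
  · linear_combination (B 0 0 * B 1 1 - B 0 1 * B 1 0) * B 0 0 * hs
  · linear_combination (B 0 0 * B 1 1 - B 0 1 * B 1 0) * B 0 1 * hs
  · ring
  · ring
  · linear_combination (B 0 0 * B 1 1 - B 0 1 * B 1 0) * χ 0 * hs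
  · ring
  · ring
  · ring
  · linear_combination (B 0 0 * B 1 1 - B 0 1 * B 1 0) * B 0 0 * hs
  · linear_combination (B 0 0 * B 1 1 - B 0 1 * B 1 0) * B 1 0 * hs
  · linear_combination (B 0 0 * B 1 1 - B 0 1 * B 1 0) * χ 2 * hs
  · ring

/-- linear combinations of the eigenvectors -/
def pp (D : Dat F) (c : Fin 2 → F) (s : F) (z : Fin 3 → F) : Fin 6 → F :=
  fun i => z 0 * hh D c s 0 i + z 1 * hh D c s 1 i + z 2 * hh D c s 2 i

/-- the matrix of `w` between the two eigenspaces -/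
def MM (D : Dat F) (c : Fin 2 → F) (s : F) : Matrix (Fin 3) (Fin 3) F :=
  fun j i => w (hh D c s i) (hh D c (-s) j)

/-- the matrix of `τ_c` between the two eigenspaces -/
def NN (D : Dat F) (c : Fin 2 → F) (s : F) : Matrix (Fin 3) (Fin 3) F :=
  fun j i => D.tau c (hh D c s i) (hh D c (-s) j)

/-- the cross product -/
def crs (a b : Fin 3 → F) : Fin 3 → F :=
  ![a 1 * b 2 - a 2 * b 1, a 2 * b 0 - a 0 * b 2, a 0 * b 1 - a 1 * b 0]

/-- the coordinates of the second point -/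
def Phi (D : Dat F) (c : Fin 2 → F) (s : F) (z : Fin 3 → F) : Fin 3 → F :=
  crs (MM D c s *ᵥ z) (NN D c s *ᵥ z)

theorem tau_anti (D : Dat F) (c : Fin 2 → F) (v v' : Fin 6 → F) :
    D.tau c v v' = - D.tau c v' v := by
  have h0 : D.tau0 v v' = - D.tau0 v' v := by
    simp only [Dat.tau0, ← Finset.sum_neg_distrib]
    refine Finset.sum_congr rfl fun i _ => Finset.sum_congr rfl fun j _ => ?_
    ring
  simp only [Dat.tau, Dat.ta, Dat.tb, h0]
  ring

theorem tau_lin (D : Dat F) (c : Fin 2 → F) (a b e : F) (v v' v'' z : Fin 6 → F) :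
    D.tau c (fun i => a * v i + b * v' i + e * v'' i) z =
      a * D.tau c v z + b * D.tau c v' z + e * D.tau c v'' z := by
  have h0 : D.tau0 (fun i => a * v i + b * v' i + e * v'' i) z =
      a * D.tau0 v z + b * D.tau0 v' z + e * D.tau0 v'' z := by
    simp only [Dat.tau0, Finset.mul_sum, ← Finset.sum_add_distrib]
    refine Finset.sum_congr rfl fun i _ => Finset.sum_congr rfl fun j _ => ?_
    ring
  simp only [Dat.tau, Dat.ta, Dat.tb, h0, bl, ln]
  ring

theorem w_lin3 (a b e : F) (v v' v'' z : Fin 6 → F) :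
    w (fun i => a * v i + b * v' i + e * v'' i) z = a * w v z + b * w v' z + e * w v'' z := by
  simp only [w, bl]
  ring

theorem w_anti' (v v' : Fin 6 → F) : w v v' = - w v' v := by
  simp only [w]
  ring

theorem w_pp (D : Dat F) (c : Fin 2 → F) (s : F) (z : Fin 3 → F) (j : Fin 3) :
    w (pp D c s z) (hh D c (-s) j) = (MM D c s *ᵥ z) j := by
  unfold pp
  rw [w_lin3]
  simp only [MM, mulVec, dotProduct, Fin.sum_univ_three]
  ring

theorem tau_pp (D : Dat F) (c : Fin 2 → F) (s : F) (z : Fin 3 → F) (j : Fin 3) :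
    D.tau c (pp D c s z) (hh D c (-s) j) = (NN D c s *ᵥ z) j := by
  unfold pp
  rw [tau_lin]
  simp only [NN, mulVec, dotProduct, Fin.sum_univ_three]
  ring

theorem w_pp_pp (D : Dat F) (c : Fin 2 → F) (s : F) (z z' : Fin 3 → F) :
    w (pp D c s z) (pp D c (-s) z') = (MM D c s *ᵥ z) 0 * z' 0 + (MM D c s *ᵥ z) 1 * z' 1 +
      (MM D c s *ᵥ z) 2 * z' 2 := by
  rw [← w_pp, ← w_pp, ← w_pp, w_anti']
  have h1 : w (pp D c (-s) z') (pp D c s z) = _ := w_lin3 (z' 0) (z' 1) (z' 2) _ _ _ _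
  rw [h1]
  rw [w_anti' (hh D c (-s) 0), w_anti' (hh D c (-s) 1), w_anti' (hh D c (-s) 2)]
  ring

theorem tau_pp_pp (D : Dat F) (c : Fin 2 → F) (s : F) (z z' : Fin 3 → F) :
    D.tau c (pp D c s z) (pp D c (-s) z') = (NN D c s *ᵥ z) 0 * z' 0 +
      (NN D c s *ᵥ z) 1 * z' 1 + (NN D c s *ᵥ z) 2 * z' 2 := by
  rw [← tau_pp, ← tau_pp, ← tau_pp, tau_anti]
  have h1 : D.tau c (pp D c (-s) z') (pp D c s z) = _ :=
    tau_lin D c (z' 0) (z' 1) (z' 2) _ _ _ _
  rw [h1]
  rw [tau_anti D c (hh D c (-s) 0), tau_anti D c (hh D c (-s) 1), tau_anti D c (hh D c (-s) 2)]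
  ring

end Ring

section Field

variable {F : Type} [Field F]

/-- eigenvectors are linear combinations of `hh` -/
theorem exists_pp (h2 : (2 : F) ≠ 0) (D : Dat F) (c : Fin 2 → F) (s : F) (hb : D.B.det ≠ 0)
    (hW : WW D c s 0 0 ≠ 0) (v : Fin 6 → F) (hv : ∀ i, D.K c v i = s * v i) :
    v = pp D c s ![v 5 / (2 * D.B.det), v 0 / (D.B.det * WW D c s 0 0),
      v 2 / (D.B.det * WW D c s 0 0)] := by
  have e0 := hv 0
  have e1 := hv 1
  have e2 := hv 2
  have e3 := hv 3
  have e5 := hv 5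
  have f1 : v 0 * WW D c s 0 1 = v 1 * WW D c s 0 0 := by
    simp only [Dat.K, KK, mix, Matrix.adjugate_fin_two, Matrix.mul_apply, Fin.sum_univ_two,
      Matrix.of_apply, Matrix.cons_val, Fin.isValue] at e0 e1
    simp only [WW, mix, Matrix.det_fin_two, Matrix.sub_apply, Matrix.smul_apply, smul_eq_mul]
    linear_combination (-D.B 0 0) * e1 + D.B 0 1 * e0
  have f2 : v 2 * WW D c s 1 0 = v 3 * WW D c s 0 0 := by
    simp only [Dat.K, KK, mix, Matrix.adjugate_fin_two, Matrix.mul_apply, Fin.sum_univ_two,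
      Matrix.of_apply, Matrix.cons_val, Fin.isValue] at e2 e3
    simp only [WW, mix, Matrix.det_fin_two, Matrix.sub_apply, Matrix.smul_apply, smul_eq_mul]
    linear_combination (-D.B 0 0) * e3 + D.B 1 0 * e2
  have f3 : 2 * D.B.det * v 4 = 2 * ln D.B.adjugate (D.χ c) v - (mix D.B (D.Z c) + s) * v 5 := by
    simp only [Dat.K, KK, Matrix.cons_val, Fin.isValue] at e5
    linear_combination (-1 : F) * e5
  have hb2 : 2 * D.B.det ≠ 0 := mul_ne_zero h2 hb
  have g1 : v 1 = v 0 / WW D c s 0 0 * WW D c s 0 1 := by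
    field_simp
    exact f1.symm
  have g3 : v 3 = v 2 / WW D c s 0 0 * WW D c s 1 0 := by
    field_simp
    exact f2.symm
  funext i
  fin_cases i <;>
  simp only [pp, hh, Matrix.cons_val, Fin.isValue, Fin.reduceFinMk, Fin.zero_eta, Fin.mk_one]
  · field_simp
    ring
  · rw [g1]
    field_simp
    ring
  · field_simp
    ring
  · rw [g3]
    field_simp
    ring
  · apply mul_left_cancel₀ hb2
    rw [f3]
    simp only [ln, Matrix.cons_val, Fin.isValue]
    rw [g1, g3]
    field_simp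
    ring
  · field_simp
    ring

end Field

end Pool.Agent.GSN
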